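import Pool.Agent.Lib.MP_d51aa1_ag.Inv

set_option autoImplicit false

/-!
# The dichotomy for eleven-dimensional spaces
-/

open Matrix Module

namespace Pool.Agent.Lib.MP_d51aa1_ag

variable {K : Type*} [Field K]

section normalForm

variable {V : Submodule K (Matrix (Fin 3 ⊕ Fin 2) (Fin 3 ⊕ Fin 2) K)}

theorem blocks_transpose₁₁ (B : Matrix (Fin 3 ⊕ Fin 2) (Fin 3 ⊕ Fin 2) K) :
    Bᵀ.toBlocks₁₁ = (B.toBlocks₁₁)ᵀ := rfl

theorem blocks_transpose₁₂ (B : Matrix (Fin 3 ⊕ Fin 2) (Fin 3 ⊕ Fin 2) K) :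
    Bᵀ.toBlocks₁₂ = (B.toBlocks₂₁)ᵀ := rfl

theorem blocks_transpose₂₁ (B : Matrix (Fin 3 ⊕ Fin 2) (Fin 3 ⊕ Fin 2) K) :
    Bᵀ.toBlocks₂₁ = (B.toBlocks₁₂)ᵀ := rfl

theorem blocks_transpose₂₂ (B : Matrix (Fin 3 ⊕ Fin 2) (Fin 3 ⊕ Fin 2) K) :
    Bᵀ.toBlocks₂₂ = (B.toBlocks₂₂)ᵀ := rfl

theorem tr_E (hE : (fromBlocks 1 0 0 0 : Matrix (Fin 3 ⊕ Fin 2) (Fin 3 ⊕ Fin 2) K) ∈ V) :
    (fromBlocks 1 0 0 0 : Matrix (Fin 3 ⊕ Fin 2) (Fin 3 ⊕ Fin 2) K) ∈ tr V := by
  rw [mem_tr, fromBlocks_transpose]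
  simpa using hE

theorem tr_rank (hr : ∀ B ∈ V, B.rank ≤ 3) : ∀ B ∈ tr V, B.rank ≤ 3 := by
  intro B hB
  rw [← Matrix.rank_transpose]
  exact hr _ (mem_tr.mp hB)

theorem T1_tr (h : T2 V) : T1 (tr V) := by
  obtain ⟨y, hy, h⟩ := h
  refine ⟨y, hy, fun B hB => ?_⟩
  obtain ⟨h1, h2, h3⟩ := h _ (mem_tr.mp hB)
  rw [blocks_transpose₂₁, mulVec_transpose] at h1
  rw [blocks_transpose₁₁, mulVec_transpose] at h3
  refine ⟨h1, fun w => ?_, h3⟩
  have := h2 w
  rwa [blocks_transpose₁₂, mulVec_transpose] at this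

theorem T2_tr (h : T1 V) : T2 (tr V) := by
  obtain ⟨y, hy, h⟩ := h
  refine ⟨y, hy, fun B hB => ?_⟩
  obtain ⟨h1, h2, h3⟩ := h _ (mem_tr.mp hB)
  rw [blocks_transpose₁₂, vecMul_transpose] at h1
  rw [blocks_transpose₁₁, vecMul_transpose] at h3
  refine ⟨h1, fun w => ?_, h3⟩
  have := h2 w
  rwa [blocks_transpose₂₁, vecMul_transpose] at this

theorem V0_tr {X : Matrix (Fin 3) (Fin 3) K} : X ∈ V0 (tr V) ↔ Xᵀ ∈ V0 V := by
  rw [mem_V0, mem_V0, mem_tr, fromBlocks_transpose]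
  simp

theorem dichotomy_nf [Infinite K]
    (hE : (fromBlocks 1 0 0 0 : Matrix (Fin 3 ⊕ Fin 2) (Fin 3 ⊕ Fin 2) K) ∈ V)
    (hr : ∀ B ∈ V, B.rank ≤ 3) (hd : finrank K V = 11) : JL V ∨ JL (tr V) := by
  have h := NF.of_rank hE hr
  have h' := NF.of_rank (tr_E hE) (tr_rank hr)
  have hd0 : 5 ≤ finrank K (V0 V) := by
    have := finrank_le_add V h.h22 (fun B hB => h.h0 hB)
    rw [hd] at this
    simp only [Fintype.card_fin] at this
    omega
  have hd0' : 5 ≤ finrank K (V0 (tr V)) := by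
    have := finrank_le_add (tr V) h'.h22 (fun B hB => h'.h0 hB)
    rw [finrank_tr, hd] at this
    simp only [Fintype.card_fin] at this
    omega
  by_cases h21 : ∀ B ∈ V, B.toBlocks₂₁ = 0
  · left; exact JL_of_T0 h21 h.h22
  by_cases h12 : ∀ B ∈ V, B.toBlocks₁₂ = 0
  · right
    apply JL_of_T0 _ h'.h22
    intro B hB
    have := h12 _ (mem_tr.mp hB)
    rw [blocks_transpose₁₂] at this
    exact Matrix.transpose_eq_zero.mp this
  have hT : T1 V ∨ T2 V := by
    push Not at h21 h12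
    rcases claim2 h with hc | hc
    · exact one_side h hd0 hc h12 h21
    · have := one_side (V := tr V) h' hd0' (by
        intro C hC v X hX
        obtain ⟨c, hc'⟩ := hc _ (mem_tr.mp hC) v _ (V0_tr.mp hX)
        refine ⟨c, ?_⟩
        rw [blocks_transpose₂₁, vecMul_transpose, vecMul_transpose] at hc'
        exact hc') (by
        obtain ⟨C, hC, hC0⟩ := h21
        refine ⟨Cᵀ, mem_tr.mpr (by simpa using hC), ?_⟩
        rw [blocks_transpose₁₂]
        simpa using hC0) (by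
        obtain ⟨C, hC, hC0⟩ := h12
        refine ⟨Cᵀ, mem_tr.mpr (by simpa using hC), ?_⟩
        rw [blocks_transpose₂₁]
        simpa using hC0)
      rcases this with h1 | h1
      · right
        have := T2_tr h1
        rwa [tr_tr] at this
      · left
        have := T1_tr h1
        rwa [tr_tr] at this
  rcases hT with hT | hT
  · left; exact JL_of_T1 h.h22 hT
  · right; exact JL_of_T1 h'.h22 (T1_tr hT)

/-! ### dimensions -/

/-- matrices with eigenvector `y` -/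
def SY (y : Fin 3 → K) : Submodule K (Matrix (Fin 3) (Fin 3) K) :=
  (Submodule.span K {y}).comap (evalAt y)

theorem mem_SY {y : Fin 3 → K} {X : Matrix (Fin 3) (Fin 3) K} :
    X ∈ SY y ↔ ∃ c : K, X *ᵥ y = c • y := by
  rw [SY, Submodule.mem_comap, Submodule.mem_span_singleton, evalAt_apply]
  constructor
  · rintro ⟨a, ha⟩; exact ⟨a, ha.symm⟩
  · rintro ⟨a, ha⟩; exact ⟨a, ha.symm⟩

theorem evalAt_surjective {y : Fin 3 → K} (hy : y ≠ 0) : Function.Surjective (evalAt y) := by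
  obtain ⟨i, hi⟩ := exists_ne_zero_apply hy
  intro z
  refine ⟨Matrix.vecMulVec z (Pi.single i (y i)⁻¹), ?_⟩
  rw [evalAt_apply]
  ext j
  simp [Matrix.mulVec, dotProduct, Matrix.vecMulVec_apply, Pi.single_apply, hi]

theorem finrank_ker_evalAt {y : Fin 3 → K} (hy : y ≠ 0) :
    finrank K (LinearMap.ker (evalAt y)) = 6 := by
  have h := LinearMap.finrank_range_add_finrank_ker (evalAt y)
  rw [LinearMap.range_eq_top.mpr (evalAt_surjective hy), finrank_top, Module.finrank_matrix] at h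
  simp at h
  omega

theorem finrank_comap_le {M N : Type*} [AddCommGroup M] [Module K M] [AddCommGroup N] [Module K N]
    [FiniteDimensional K M] [FiniteDimensional K N] (f : M →ₗ[K] N) (W : Submodule K N) :
    finrank K (W.comap f) ≤ finrank K (LinearMap.ker f) + finrank K W := by
  let g : W.comap f →ₗ[K] W := f.restrict (fun x hx => hx)
  have h := LinearMap.finrank_range_add_finrank_ker g
  have h1 : finrank K (LinearMap.range g) ≤ finrank K W := Submodule.finrank_le _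
  have h2 : finrank K (LinearMap.ker g) ≤ finrank K (LinearMap.ker f) := by
    let k : LinearMap.ker g →ₗ[K] LinearMap.ker f :=
      LinearMap.codRestrict _ ((W.comap f).subtype.comp (LinearMap.ker g).subtype) (by
        intro x
        have := x.2
        rw [LinearMap.mem_ker] at this ⊢
        exact congrArg Subtype.val this)
    refine LinearMap.finrank_le_finrank_of_injective (f := k) ?_
    intro a b hab
    have h : (k a).1 = (k b).1 := by rw [hab]
    apply Subtype.ext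
    apply Subtype.ext
    exact h
  omega

theorem finrank_SY_le {y : Fin 3 → K} (hy : y ≠ 0) : finrank K (SY y) ≤ 7 := by
  have h1 := finrank_comap_le (evalAt y) (Submodule.span K {y})
  rw [finrank_ker_evalAt hy] at h1
  have h2 : finrank K (Submodule.span K {y}) = 1 := finrank_span_singleton hy
  unfold SY
  omega

/-- matrices with left eigenvector `x` -/
def SX (x : Fin 3 → K) : Submodule K (Matrix (Fin 3) (Fin 3) K) :=
  tr (SY x)

theorem mem_SX {x : Fin 3 → K} {X : Matrix (Fin 3) (Fin 3) K} :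
    X ∈ SX x ↔ ∃ c : K, x ᵥ* X = c • x := by
  rw [SX, mem_tr, mem_SY]
  simp only [mulVec_transpose]

theorem finrank_SX_le {x : Fin 3 → K} (hx : x ≠ 0) : finrank K (SX x) ≤ 7 := by
  rw [SX, finrank_tr]
  exact finrank_SY_le hx

theorem finrank_SXY_le {x y : Fin 3 → K} (hx : x ≠ 0) (hy : y ≠ 0) :
    finrank K (SY y ⊓ SX x : Submodule K (Matrix (Fin 3) (Fin 3) K)) ≤ 6 := by
  have hlt : SY y ⊓ SX x < SY y := by
    refine lt_of_le_of_ne inf_le_left ?_
    intro heq
    have hle : SY y ≤ SX x := by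
      rw [← heq]; exact inf_le_right
    -- choose v orthogonal to y and not parallel to x
    obtain ⟨v, hv, hyv⟩ := exists_plane hy x
    obtain ⟨i, hi⟩ := exists_ne_zero_apply hx
    have hmem : Matrix.vecMulVec (Pi.single i 1) v ∈ SY y := by
      rw [mem_SY]
      refine ⟨0, ?_⟩
      rw [zero_smul]
      ext j
      have : v ⬝ᵥ y = 0 := by rw [dotProduct_comm]; exact hyv
      simp only [Matrix.mulVec, dotProduct, Matrix.vecMulVec_apply, mul_assoc, Pi.zero_apply]
      rw [← Finset.mul_sum]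
      simp only [dotProduct] at this
      rw [this, mul_zero]
    obtain ⟨c, hc⟩ := mem_SX.mp (hle hmem)
    apply hv ((x i)⁻¹ * c)
    have e : x ᵥ* Matrix.vecMulVec (Pi.single i 1) v = x i • v := by
      ext j
      simp [Matrix.vecMul, dotProduct, Matrix.vecMulVec_apply, Pi.single_apply]
    rw [e] at hc
    rw [mul_smul, ← hc, smul_smul, inv_mul_cancel₀ hi, one_smul]
  have h1 := Submodule.finrank_lt_finrank_of_lt hlt
  have h2 := finrank_SY_le hy
  omega

/-- matrices with columns in `K y` -/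
def CY (y : Fin 3 → K) : Submodule K (Matrix (Fin 3) (Fin 2) K) where
  carrier := {P | ∀ v, ∃ c : K, P *ᵥ v = c • y}
  add_mem' := by
    intro P Q hP hQ v
    obtain ⟨a, ha⟩ := hP v
    obtain ⟨b, hb⟩ := hQ v
    exact ⟨a + b, by rw [add_mulVec, ha, hb, add_smul]⟩
  zero_mem' := fun v => ⟨0, by simp⟩
  smul_mem' := by
    intro r P hP v
    obtain ⟨a, ha⟩ := hP v
    exact ⟨r * a, by rw [smul_mulVec, ha, smul_smul]⟩

theorem finrank_CY_le {y : Fin 3 → K} (hy : y ≠ 0) : finrank K (CY y) ≤ 2 := by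
  obtain ⟨i, hi⟩ := exists_ne_zero_apply hy
  let f : CY y →ₗ[K] (Fin 2 → K) :=
    { toFun := fun P => P.1 i
      map_add' := fun _ _ => rfl
      map_smul' := fun _ _ => rfl }
  have h2 : finrank K (Fin 2 → K) = 2 := by simp
  refine (LinearMap.finrank_le_finrank_of_injective (f := f) ?_).trans h2.le
  rw [injective_iff_map_eq_zero]
  rintro ⟨P, hP⟩ h0
  apply Subtype.ext
  ext k j
  obtain ⟨c, hc⟩ := hP (Pi.single j 1)
  have e1 := congrFun hc i
  have e2 := congrFun hc k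
  have e3 : P i j = 0 := congrFun h0 j
  simp only [mulVec_single_one, Matrix.col_apply, Pi.smul_apply, smul_eq_mul] at e1 e2
  rw [e3] at e1
  have hc0 : c = 0 := (mul_eq_zero.mp e1.symm).resolve_right hi
  rw [hc0, zero_mul] at e2
  exact e2

/-- matrices with rows in `K x` -/
def RX (x : Fin 3 → K) : Submodule K (Matrix (Fin 2) (Fin 3) K) where
  carrier := {P | ∀ w, ∃ c : K, w ᵥ* P = c • x}
  add_mem' := by
    intro P Q hP hQ v
    obtain ⟨a, ha⟩ := hP v
    obtain ⟨b, hb⟩ := hQ v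
    exact ⟨a + b, by rw [vecMul_add, ha, hb, add_smul]⟩
  zero_mem' := fun v => ⟨0, by simp⟩
  smul_mem' := by
    intro r P hP v
    obtain ⟨a, ha⟩ := hP v
    exact ⟨r * a, by rw [vecMul_smul, ha, smul_smul]⟩

theorem finrank_RX_le {x : Fin 3 → K} (hx : x ≠ 0) : finrank K (RX x) ≤ 2 := by
  obtain ⟨i, hi⟩ := exists_ne_zero_apply hx
  let f : RX x →ₗ[K] (Fin 2 → K) :=
    { toFun := fun P j => P.1 j i
      map_add' := fun _ _ => rfl
      map_smul' := fun _ _ => rfl }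
  have h2 : finrank K (Fin 2 → K) = 2 := by simp
  refine (LinearMap.finrank_le_finrank_of_injective (f := f) ?_).trans h2.le
  rw [injective_iff_map_eq_zero]
  rintro ⟨P, hP⟩ h0
  apply Subtype.ext
  ext j k
  obtain ⟨c, hc⟩ := hP (Pi.single j 1)
  have e1 := congrFun hc i
  have e2 := congrFun hc k
  have e3 : P j i = 0 := congrFun h0 j
  simp only [single_one_vecMul, Matrix.row_apply, Pi.smul_apply, smul_eq_mul] at e1 e2
  rw [e3] at e1
  have hc0 : c = 0 := (mul_eq_zero.mp e1.symm).resolve_right hi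
  rw [hc0, zero_mul] at e2
  exact e2

theorem finrank_le_blocks (S₁₁ : Submodule K (Matrix (Fin 3) (Fin 3) K))
    (S₁₂ : Submodule K (Matrix (Fin 3) (Fin 2) K)) (S₂₁ : Submodule K (Matrix (Fin 2) (Fin 3) K))
    (h22 : ∀ B ∈ V, B.toBlocks₂₂ = 0) (h11 : ∀ B ∈ V, B.toBlocks₁₁ ∈ S₁₁)
    (h12 : ∀ B ∈ V, B.toBlocks₁₂ ∈ S₁₂) (h21 : ∀ B ∈ V, B.toBlocks₂₁ ∈ S₂₁) :
    finrank K V ≤ finrank K S₁₁ + (finrank K S₁₂ + finrank K S₂₁) := by
  let f : V →ₗ[K] S₁₁ × (S₁₂ × S₂₁) :=
    { toFun := fun B => (⟨B.1.toBlocks₁₁, h11 B.1 B.2⟩, (⟨B.1.toBlocks₁₂, h12 B.1 B.2⟩,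
        ⟨B.1.toBlocks₂₁, h21 B.1 B.2⟩))
      map_add' := fun _ _ => rfl
      map_smul' := fun _ _ => rfl }
  have hf : finrank K (S₁₁ × (S₁₂ × S₂₁)) =
      finrank K S₁₁ + (finrank K S₁₂ + finrank K S₂₁) := by
    rw [Module.finrank_prod, Module.finrank_prod]
  rw [← hf]
  refine LinearMap.finrank_le_finrank_of_injective (f := f) ?_
  rw [injective_iff_map_eq_zero]
  rintro ⟨B, hB⟩ h0
  have e1 : B.toBlocks₁₁ = 0 := congrArg (fun z => (z.1 : Matrix (Fin 3) (Fin 3) K)) h0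
  have e2 : B.toBlocks₁₂ = 0 := congrArg (fun z => (z.2.1 : Matrix (Fin 3) (Fin 2) K)) h0
  have e3 : B.toBlocks₂₁ = 0 := congrArg (fun z => (z.2.2 : Matrix (Fin 2) (Fin 3) K)) h0
  apply Subtype.ext
  change B = 0
  rw [← fromBlocks_toBlocks B, e1, e2, e3, h22 B hB]
  exact fromBlocks_zero

theorem disjoint_nf [Infinite K]
    (hE : (fromBlocks 1 0 0 0 : Matrix (Fin 3 ⊕ Fin 2) (Fin 3 ⊕ Fin 2) K) ∈ V)
    (hr : ∀ B ∈ V, B.rank ≤ 3) (hd : finrank K V = 11) (h1 : JL V) (h2 : JL (tr V)) : False := by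
  have h := NF.of_rank hE hr
  have h' := NF.of_rank (tr_E hE) (tr_rank hr)
  have hA := T_of_JL h hr h1
  have hB := T_of_JL h' (tr_rank hr) h2
  have hB' : (∀ B ∈ V, B.toBlocks₁₂ = 0) ∨ T2 V := by
    rcases hB with hB | hB
    · left
      intro B hBV
      have := hB Bᵀ (mem_tr.mpr (by simpa using hBV))
      rw [blocks_transpose₂₁] at this
      exact Matrix.transpose_eq_zero.mp this
    · right
      have := T2_tr hB
      rwa [tr_tr] at this
  have h9 : finrank K (⊤ : Submodule K (Matrix (Fin 3) (Fin 3) K)) = 9 := by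
    rw [finrank_top, Module.finrank_matrix]; simp
  rcases hA with hA | ⟨x, hx, hA⟩ <;> rcases hB' with hB' | ⟨y, hy, hB'⟩
  · have := finrank_le_blocks (V := V) ⊤ ⊥ ⊥ h.h22 (fun _ _ => Submodule.mem_top)
      (fun B hB => (Submodule.mem_bot K).mpr (hB' B hB))
      (fun B hB => (Submodule.mem_bot K).mpr (hA B hB))
    rw [h9, finrank_bot, finrank_bot, hd] at this
    omega
  · have := finrank_le_blocks (V := V) (SY y) (CY y) ⊥ h.h22
      (fun B hB => mem_SY.mpr (hB' B hB).2.2)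
      (fun B hB => (hB' B hB).2.1)
      (fun B hB => (Submodule.mem_bot K).mpr (hA B hB))
    have h3 := finrank_SY_le hy
    have h4 := finrank_CY_le hy
    rw [finrank_bot, hd] at this
    omega
  · have := finrank_le_blocks (V := V) (SX x) ⊥ (RX x) h.h22
      (fun B hB => mem_SX.mpr (hA B hB).2.2)
      (fun B hB => (Submodule.mem_bot K).mpr (hB' B hB))
      (fun B hB => (hA B hB).2.1)
    have h3 := finrank_SX_le hx
    have h4 := finrank_RX_le hx
    rw [finrank_bot, hd] at this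
    omega
  · have := finrank_le_blocks (V := V) (SY y ⊓ SX x) (CY y) (RX x) h.h22
      (fun B hB => ⟨mem_SY.mpr (hB' B hB).2.2, mem_SX.mpr (hA B hB).2.2⟩)
      (fun B hB => (hB' B hB).2.1)
      (fun B hB => (hA B hB).2.1)
    have h3 := finrank_SXY_le hx hy
    have h4 := finrank_RX_le hx
    have h5 := finrank_CY_le hy
    rw [hd] at this
    omega

end normalForm

end Pool.Agent.Lib.MP_d51aa1_ag
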