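import Pool.Agent.Lib.MP_d51aa1_ag.Vec3

set_option autoImplicit false

/-!
# Classification of large spaces of `5 × 5` matrices of rank at most three (normal form)
-/

open Matrix Module

namespace Pool.Agent.Lib.MP_d51aa1_ag

variable {K : Type*} [Field K]

theorem plane_coeff {x y v z : Fin 3 → K} (hy : y ≠ 0) (hv : ∀ c : K, v ≠ c • y)
    (hx : x ≠ 0) (hxy : x ⬝ᵥ y = 0) (hxv : x ⬝ᵥ v = 0) (hxz : x ⬝ᵥ z = 0) :
    ∃ a b : K, z = a • y + b • v := by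
  obtain ⟨u, hu⟩ := exists_third hy hv
  have hxu : x ⬝ᵥ u ≠ 0 := fun h => hx (vec_eq_zero hu hxy hxv h)
  obtain ⟨a, b, c, rfl⟩ := exists_coeff hu z
  rw [dotProduct_add, dotProduct_add, dotProduct_smul, dotProduct_smul, dotProduct_smul,
    hxy, hxv] at hxz
  simp only [smul_eq_mul, mul_zero, zero_add] at hxz
  have hc : c = 0 := (mul_eq_zero.mp hxz).resolve_right hxu
  exact ⟨a, b, by rw [hc, zero_smul, add_zero]⟩

/-- spaces in normal form -/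
structure NF (V : Submodule K (Matrix (Fin 3 ⊕ Fin 2) (Fin 3 ⊕ Fin 2) K)) : Prop where
  hE : (fromBlocks 1 0 0 0 : Matrix (Fin 3 ⊕ Fin 2) (Fin 3 ⊕ Fin 2) K) ∈ V
  h22 : ∀ B ∈ V, B.toBlocks₂₂ = 0
  hadj : ∀ B ∈ V, ∀ t : K, B.toBlocks₂₁ * (1 + t • B.toBlocks₁₁).adjugate * B.toBlocks₁₂ = 0

variable {V : Submodule K (Matrix (Fin 3 ⊕ Fin 2) (Fin 3 ⊕ Fin 2) K)}

theorem NF.of_rank [Infinite K]
    (hE : (fromBlocks 1 0 0 0 : Matrix (Fin 3 ⊕ Fin 2) (Fin 3 ⊕ Fin 2) K) ∈ V)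
    (hr : ∀ B ∈ V, B.rank ≤ 3) : NF V := by
  have h := fun B (hB : B ∈ V) => identities B (fun t => by
    simpa using hr _ (V.add_mem hE (V.smul_mem t hB)))
  exact ⟨hE, fun B hB => (h B hB).1, fun B hB => (h B hB).2⟩

theorem NF.h0 (h : NF V) {C : Matrix (Fin 3 ⊕ Fin 2) (Fin 3 ⊕ Fin 2) K} (hC : C ∈ V) :
    C.toBlocks₂₁ * C.toBlocks₁₂ = 0 := by
  simpa using h.hadj C hC 0

theorem NF.h1 [Infinite K] (h : NF V) {C : Matrix (Fin 3 ⊕ Fin 2) (Fin 3 ⊕ Fin 2) K} (hC : C ∈ V) :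
    C.toBlocks₂₁ * C.toBlocks₁₁ * C.toBlocks₁₂ = 0 := by
  have h1 := (adj_step _ _ _ (h.hadj C hC)).2
  simpa using h1 0

theorem NF.h2 [Infinite K] (h : NF V) {C : Matrix (Fin 3 ⊕ Fin 2) (Fin 3 ⊕ Fin 2) K} (hC : C ∈ V) :
    C.toBlocks₂₁ * C.toBlocks₁₁ * C.toBlocks₁₁ * C.toBlocks₁₂ = 0 := by
  have h1 := (adj_step _ _ _ (h.hadj C hC)).2
  have h2 := (adj_step _ _ _ h1).2
  simpa using h2 0

theorem add_mem_V0 {C : Matrix (Fin 3 ⊕ Fin 2) (Fin 3 ⊕ Fin 2) K} (hC : C ∈ V)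
    {X : Matrix (Fin 3) (Fin 3) K} (hX : X ∈ V0 V) :
    ∃ D ∈ V, D.toBlocks₁₁ = C.toBlocks₁₁ + X ∧ D.toBlocks₁₂ = C.toBlocks₁₂ ∧
      D.toBlocks₂₁ = C.toBlocks₂₁ := by
  refine ⟨C + fromBlocks X 0 0 0, V.add_mem hC hX, ?_, ?_, ?_⟩
  · ext i j; simp [Matrix.toBlocks₁₁]
  · ext i j; simp [Matrix.toBlocks₁₂]
  · ext i j; simp [Matrix.toBlocks₂₁]

theorem NF.hX1 [Infinite K] (h : NF V) {C : Matrix (Fin 3 ⊕ Fin 2) (Fin 3 ⊕ Fin 2) K} (hC : C ∈ V)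
    {X : Matrix (Fin 3) (Fin 3) K} (hX : X ∈ V0 V) :
    C.toBlocks₂₁ * X * C.toBlocks₁₂ = 0 := by
  obtain ⟨D, hD, e1, e2, e3⟩ := add_mem_V0 hC hX
  have := h.h1 hD
  rw [e1, e2, e3, Matrix.mul_add, Matrix.add_mul, h.h1 hC, zero_add] at this
  exact this

theorem NF.hX2 [Infinite K] (h : NF V) {C : Matrix (Fin 3 ⊕ Fin 2) (Fin 3 ⊕ Fin 2) K} (hC : C ∈ V)
    {X : Matrix (Fin 3) (Fin 3) K} (hX : X ∈ V0 V) :
    C.toBlocks₂₁ * X * X * C.toBlocks₁₂ = 0 := by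
  set P := C.toBlocks₁₂
  set Q := C.toBlocks₂₁
  set A := C.toBlocks₁₁
  have key : ∀ s : K, s • (Q * A * X * P + Q * X * A * P) + (s * s) • (Q * X * X * P) = 0 := by
    intro s
    obtain ⟨D, hD, e1, e2, e3⟩ := add_mem_V0 hC ((V0 V).smul_mem s hX)
    have h2 := h.h2 hD
    have h2C := h.h2 hC
    rw [e1, e2, e3] at h2
    have e : Q * (A + s • X) * (A + s • X) * P = Q * A * A * P +
        (s • (Q * A * X * P + Q * X * A * P) + (s * s) • (Q * X * X * P)) := by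
      simp only [Matrix.mul_add, Matrix.add_mul, Matrix.mul_smul, Matrix.smul_mul, smul_add,
        smul_smul]
      abel
    have h3 : Q * (A + s • X) * (A + s • X) * P = 0 := h2
    rw [e] at h3
    have h4 : Q * A * A * P = 0 := h2C
    rw [h4, zero_add] at h3
    exact h3
  classical
  obtain ⟨s, -, hs⟩ := Set.Infinite.exists_notMem_finset (Set.infinite_univ (α := K))
    ({0, 1} : Finset K)
  simp only [Finset.mem_insert, Finset.mem_singleton, not_or] at hs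
  have k1 := key 1
  have k2 := key s
  ext i j
  have k1' := congrFun (congrFun k1 i) j
  have k2' := congrFun (congrFun k2 i) j
  simp only [Matrix.add_apply, Matrix.smul_apply, smul_eq_mul, one_mul, mul_one,
    Matrix.zero_apply] at k1' k2' ⊢
  have : s * (s - 1) * (Q * X * X * P) i j = 0 := by
    linear_combination k2' - s * k1'
  rcases mul_eq_zero.mp this with h' | h'
  · rcases mul_eq_zero.mp h' with h'' | h''
    · exact absurd h'' hs.1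
    · exact absurd (sub_eq_zero.mp h'') hs.2
  · exact h'

theorem claim1 [Infinite K] (h : NF V) {C : Matrix (Fin 3 ⊕ Fin 2) (Fin 3 ⊕ Fin 2) K} (hC : C ∈ V)
    (w v : Fin 2 → K) :
    (∀ X ∈ V0 V, ∃ c : K, X *ᵥ (C.toBlocks₁₂ *ᵥ v) = c • (C.toBlocks₁₂ *ᵥ v)) ∨
    (∀ X ∈ V0 V, ∃ c : K, (w ᵥ* C.toBlocks₂₁) ᵥ* X = c • (w ᵥ* C.toBlocks₂₁)) := by
  have hxy : (w ᵥ* C.toBlocks₂₁) ⬝ᵥ (C.toBlocks₁₂ *ᵥ v) = 0 := by
    rw [← dotProduct_mulVec, mulVec_mulVec, h.h0 hC, zero_mulVec, dotProduct_zero]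
  have hxXy : ∀ X ∈ V0 V, (w ᵥ* C.toBlocks₂₁) ⬝ᵥ (X *ᵥ (C.toBlocks₁₂ *ᵥ v)) = 0 := by
    intro X hX
    rw [← dotProduct_mulVec, mulVec_mulVec, mulVec_mulVec, h.hX1 hC hX,
      zero_mulVec, dotProduct_zero]
  have hxXXy : ∀ X ∈ V0 V, (w ᵥ* C.toBlocks₂₁) ⬝ᵥ (X *ᵥ (X *ᵥ (C.toBlocks₁₂ *ᵥ v))) = 0 := by
    intro X hX
    rw [← dotProduct_mulVec, mulVec_mulVec, mulVec_mulVec, mulVec_mulVec,
      h.hX2 hC hX, zero_mulVec, dotProduct_zero]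
  generalize (w ᵥ* C.toBlocks₂₁) = x at *
  generalize (C.toBlocks₁₂ *ᵥ v) = y at *
  by_cases hy : y = 0
  · left; intro X _; exact ⟨0, by simp [hy]⟩
  by_cases hx : x = 0
  · right; intro X _; exact ⟨0, by simp [hx]⟩
  obtain ⟨y2, hy2, hxy2⟩ := exists_plane hx y
  by_cases hg : ∀ X ∈ V0 V, x ⬝ᵥ (X *ᵥ y2) = 0
  · right
    intro X hX
    exact exists_smul_of_dot hy hy2 hx hxy hxy2
      (by rw [← dotProduct_mulVec]; exact hxXy X hX)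
      (by rw [← dotProduct_mulVec]; exact hg X hX)
  · left
    push Not at hg
    obtain ⟨X₀, hX₀, hg₀⟩ := hg
    intro X hX
    apply exists_smul_of_minors hy
    intro i j
    have hent : ∀ i j, PolyAff (fun X : Matrix (Fin 3) (Fin 3) K => X i j) :=
      fun i j => PolyAff.entry i j
    refine irr (V0 V) (f := fun X => x ⬝ᵥ (X *ᵥ y2))
      (g := fun X => y i * (X *ᵥ y) j - y j * (X *ᵥ y) i) ?_ ?_ ?_ ⟨X₀, hX₀, hg₀⟩ X hX
    · exact PolyAff.dot (fun _ => PolyAff.const _) (PolyAff.mulVec hent fun _ => PolyAff.const _)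
    · exact ((PolyAff.const _).mul
        (PolyAff.mulVec (v := fun _ => y) hent (fun _ => PolyAff.const _) j)).sub
        ((PolyAff.const _).mul
        (PolyAff.mulVec (v := fun _ => y) hent (fun _ => PolyAff.const _) i))
    · intro Y hY hne
      obtain ⟨a, b, hab⟩ := plane_coeff hy hy2 hx hxy hxy2 (hxXy Y hY)
      have h3 := hxXXy Y hY
      rw [hab, mulVec_add, mulVec_smul, mulVec_smul, dotProduct_add, dotProduct_smul,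
        dotProduct_smul, hxXy Y hY, smul_zero, zero_add, smul_eq_mul] at h3
      have hb : b = 0 := (mul_eq_zero.mp h3).resolve_right hne
      rw [hab, hb, zero_smul, add_zero]
      exact minors_of_smul y a i j

/-- eigenvectors of `V0` -/
def Eig (V : Submodule K (Matrix (Fin 3 ⊕ Fin 2) (Fin 3 ⊕ Fin 2) K)) (y : Fin 3 → K) : Prop :=
  ∀ X ∈ V0 V, ∃ c : K, X *ᵥ y = c • y

/-- left eigenvectors of `V0` -/
def LEig (V : Submodule K (Matrix (Fin 3 ⊕ Fin 2) (Fin 3 ⊕ Fin 2) K)) (x : Fin 3 → K) : Prop :=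
  ∀ X ∈ V0 V, ∃ c : K, x ᵥ* X = c • x

theorem not_eig {y : Fin 3 → K} (h : ¬ Eig V y) :
    ∃ X ∈ V0 V, ∃ i j, y i * (X *ᵥ y) j - y j * (X *ᵥ y) i ≠ 0 := by
  unfold Eig at h
  push Not at h
  obtain ⟨X, hX, hc⟩ := h
  refine ⟨X, hX, ?_⟩
  apply exists_minor_ne_zero _ hc
  rintro rfl
  exact hc 0 (by simp)

theorem not_leig {x : Fin 3 → K} (h : ¬ LEig V x) :
    ∃ X ∈ V0 V, ∃ i j, x i * (x ᵥ* X) j - x j * (x ᵥ* X) i ≠ 0 := by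
  unfold LEig at h
  push Not at h
  obtain ⟨X, hX, hc⟩ := h
  refine ⟨X, hX, ?_⟩
  apply exists_minor_ne_zero _ hc
  rintro rfl
  exact hc 0 (by simp)

theorem ent11 (i j : Fin 3) :
    PolyAff (fun B : Matrix (Fin 3 ⊕ Fin 2) (Fin 3 ⊕ Fin 2) K => B.toBlocks₁₁ i j) :=
  PolyAff.entry (Sum.inl i) (Sum.inl j)

theorem ent12 (i : Fin 3) (j : Fin 2) :
    PolyAff (fun B : Matrix (Fin 3 ⊕ Fin 2) (Fin 3 ⊕ Fin 2) K => B.toBlocks₁₂ i j) :=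
  PolyAff.entry (Sum.inl i) (Sum.inr j)

theorem ent21 (i : Fin 2) (j : Fin 3) :
    PolyAff (fun B : Matrix (Fin 3 ⊕ Fin 2) (Fin 3 ⊕ Fin 2) K => B.toBlocks₂₁ i j) :=
  PolyAff.entry (Sum.inr i) (Sum.inl j)

theorem claim2 [Infinite K] (h : NF V) :
    (∀ C ∈ V, ∀ v, Eig V (C.toBlocks₁₂ *ᵥ v)) ∨ (∀ C ∈ V, ∀ w, LEig V (w ᵥ* C.toBlocks₂₁)) := by
  by_contra hcon
  push Not at hcon
  obtain ⟨⟨C, hC, v, hCv⟩, ⟨D, hD, w, hDw⟩⟩ := hcon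
  obtain ⟨X, hX, i, j, hij⟩ := not_eig hCv
  obtain ⟨Y, hY, k, l, hkl⟩ := not_leig hDw
  have := irr V (f := fun B => (B.toBlocks₁₂ *ᵥ v) i * (X *ᵥ (B.toBlocks₁₂ *ᵥ v)) j -
      (B.toBlocks₁₂ *ᵥ v) j * (X *ᵥ (B.toBlocks₁₂ *ᵥ v)) i)
    (g := fun B => (w ᵥ* B.toBlocks₂₁) k * ((w ᵥ* B.toBlocks₂₁) ᵥ* Y) l -
      (w ᵥ* B.toBlocks₂₁) l * ((w ᵥ* B.toBlocks₂₁) ᵥ* Y) k) ?_ ?_ ?_ ⟨C, hC, hij⟩ D hD
  · exact hkl this
  · have h1 : ∀ a, PolyAff (fun B : Matrix (Fin 3 ⊕ Fin 2) (Fin 3 ⊕ Fin 2) K =>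
        (B.toBlocks₁₂ *ᵥ v) a) := PolyAff.mulVec ent12 fun _ => PolyAff.const _
    have h2 : ∀ a, PolyAff (fun B : Matrix (Fin 3 ⊕ Fin 2) (Fin 3 ⊕ Fin 2) K =>
        (X *ᵥ (B.toBlocks₁₂ *ᵥ v)) a) :=
      PolyAff.mulVec (A := fun _ => X) (fun _ _ => PolyAff.const _) h1
    exact ((h1 i).mul (h2 j)).sub ((h1 j).mul (h2 i))
  · have h1 : ∀ a, PolyAff (fun B : Matrix (Fin 3 ⊕ Fin 2) (Fin 3 ⊕ Fin 2) K =>
        (w ᵥ* B.toBlocks₂₁) a) := PolyAff.vecMul ent21 fun _ => PolyAff.const _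
    have h2 : ∀ a, PolyAff (fun B : Matrix (Fin 3 ⊕ Fin 2) (Fin 3 ⊕ Fin 2) K =>
        ((w ᵥ* B.toBlocks₂₁) ᵥ* Y) a) :=
      PolyAff.vecMul (A := fun _ => Y) (fun _ _ => PolyAff.const _) h1
    exact ((h1 k).mul (h2 l)).sub ((h1 l).mul (h2 k))
  · intro B hB hne
    rcases claim1 h hB w v with h' | h'
    · exfalso
      obtain ⟨c, hc⟩ := h' X hX
      apply hne
      rw [hc]
      exact minors_of_smul _ c i j
    · obtain ⟨c, hc⟩ := h' Y hY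
      rw [hc]
      exact minors_of_smul _ c k l

end Pool.Agent.Lib.MP_d51aa1_ag
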