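import Pool.Agent.Lib.MP_d51aa1_ag.Transfer

set_option autoImplicit false

/-!
# Polynomial form of the invariant
-/

open Matrix Module

namespace Pool.Agent.Lib.MP_d51aa1_ag

variable {K : Type*} [Field K]

/-- cofactors: the vector representing the functional `z ↦ det (z, w)` -/
def cof (w : Fin 4 → Fin 5 → K) : Fin 5 → K :=
  fun j => (-1) ^ (j : ℕ) * ((Matrix.of w).submatrix id j.succAbove).det

theorem cof_dot (w : Fin 4 → Fin 5 → K) (z : Fin 5 → K) :
    cof w ⬝ᵥ z = (Matrix.of (Matrix.vecCons z w)).det := by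
  rw [Matrix.det_succ_row_zero, dotProduct]
  refine Finset.sum_congr rfl fun j _ => ?_
  have : (Matrix.of (Matrix.vecCons z w)).submatrix Fin.succ j.succAbove =
      (Matrix.of w).submatrix id j.succAbove := by
    ext a b
    simp [Matrix.submatrix_apply]
  rw [this, cof]
  simp only [Matrix.of_apply, Matrix.cons_val_zero]
  ring

/-- the kernel vectors of `A` obtained from `3 × 3` minors -/
def kv (A : Matrix (Fin 5) (Fin 5) K) (u : Fin 3 → Fin 5 → K) (a : Fin 5 → K) : Fin 5 → K :=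
  cof (Matrix.vecCons a fun i => A *ᵥ u i)

theorem card_le_rank {ι : Type*} [Fintype ι] (A : Matrix (Fin 5) (Fin 5) K) (f : ι → Fin 5 → K)
    (h : LinearIndependent K fun i => A *ᵥ f i) : Fintype.card ι ≤ A.rank := by
  have h1 : LinearIndependent K (fun i => (⟨A *ᵥ f i, ⟨f i, rfl⟩⟩ : LinearMap.range A.mulVecLin)) := by
    apply LinearIndependent.of_comp (LinearMap.range A.mulVecLin).subtype
    exact h
  exact h1.fintype_card_le_finrank

theorem kv_vecMul {A : Matrix (Fin 5) (Fin 5) K} (hA : A.rank ≤ 3) (u : Fin 3 → Fin 5 → K)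
    (a : Fin 5 → K) : kv A u a ᵥ* A = 0 := by
  ext j
  have h1 : (kv A u a ᵥ* A) j = kv A u a ⬝ᵥ (A *ᵥ Pi.single j 1) := by
    rw [dotProduct_mulVec, dotProduct_single_one]
  rw [h1, kv, cof_dot]
  by_contra hne
  have h2 := Matrix.linearIndependent_rows_of_det_ne_zero hne
  have h3 : LinearIndependent K (fun i : Fin 4 => A *ᵥ (Matrix.vecCons (Pi.single j 1) u i)) := by
    have := h2.comp (![0, 2, 3, 4] : Fin 4 → Fin 5) (by decide)
    have e : (fun i : Fin 4 => A *ᵥ (Matrix.vecCons (Pi.single j 1) u i)) =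
        (fun i => (Matrix.of (Matrix.vecCons (A *ᵥ Pi.single j 1)
          (Matrix.vecCons a fun i => A *ᵥ u i))) i) ∘ (![0, 2, 3, 4] : Fin 4 → Fin 5) := by
      ext i k
      fin_cases i <;> rfl
    rw [e]
    exact this
  have h4 := card_le_rank A _ h3
  simp only [Fintype.card_fin] at h4
  omega

theorem kv_eq_zero {A : Matrix (Fin 5) (Fin 5) K} (hA : A.rank ≤ 2) (u : Fin 3 → Fin 5 → K)
    (a : Fin 5 → K) : kv A u a = 0 := by
  ext j
  have h1 : kv A u a j = kv A u a ⬝ᵥ Pi.single j 1 := by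
    rw [dotProduct_single_one]
  rw [h1, kv, cof_dot]
  by_contra hne
  have h2 := Matrix.linearIndependent_rows_of_det_ne_zero hne
  have h3 : LinearIndependent K (fun i : Fin 3 => A *ᵥ u i) := by
    have := h2.comp (![2, 3, 4] : Fin 3 → Fin 5) (by decide)
    have e : (fun i : Fin 3 => A *ᵥ u i) =
        (fun i => (Matrix.of (Matrix.vecCons (Pi.single j 1)
          (Matrix.vecCons a fun i => A *ᵥ u i))) i) ∘ (![2, 3, 4] : Fin 3 → Fin 5) := by
      ext i k
      fin_cases i <;> rfl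
    rw [e]
    exact this
  have h4 := card_le_rank A _ h3
  simp only [Fintype.card_fin] at h4
  omega

theorem exists_kv {A : Matrix (Fin 5) (Fin 5) K} (hA : A.rank = 3) {v : Fin 5 → K} (hv : v ≠ 0)
    (hvA : v ᵥ* A = 0) : ∃ (u : Fin 3 → Fin 5 → K) (a : Fin 5 → K) (c : K), c ≠ 0 ∧
      kv A u a = c • v := by
  -- a basis of the range
  have hfin : finrank K (LinearMap.range A.mulVecLin) = 3 := hA
  let b := Module.finBasisOfFinrankEq K (LinearMap.range A.mulVecLin) hfin
  have hb : ∀ i, ∃ u : Fin 5 → K, A *ᵥ u = (b i : Fin 5 → K) := fun i => (b i).2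
  choose u hu using hb
  have hbli : LinearIndependent K (fun i => A *ᵥ u i) := by
    have := b.linearIndependent.map' (LinearMap.range A.mulVecLin).subtype
      (Submodule.ker_subtype _)
    have e : (fun i => A *ᵥ u i) = (LinearMap.range A.mulVecLin).subtype ∘ b := by
      ext i
      rw [hu]; rfl
    rw [e]
    exact this
  -- the hyperplane
  let φ : (Fin 5 → K) →ₗ[K] K :=
    { toFun := fun z => v ⬝ᵥ z
      map_add' := fun x y => dotProduct_add v x y
      map_smul' := fun c x => by simp }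
  have hφ : ∀ z, φ z = v ⬝ᵥ z := fun _ => rfl
  obtain ⟨i₀, hi₀⟩ := exists_ne_zero_apply hv
  have hrange : LinearMap.range φ = ⊤ := by
    rw [LinearMap.range_eq_top]
    intro c
    refine ⟨Pi.single i₀ (c / v i₀), ?_⟩
    rw [hφ, dotProduct_single]
    field_simp
  have hker : finrank K (LinearMap.ker φ) = 4 := by
    have h := LinearMap.finrank_range_add_finrank_ker φ
    rw [hrange, finrank_top, finrank_self, Module.finrank_fin_fun] at h
    omega
  have hle : LinearMap.range A.mulVecLin ≤ LinearMap.ker φ := by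
    rintro _ ⟨z, rfl⟩
    rw [LinearMap.mem_ker, hφ]
    change v ⬝ᵥ (A *ᵥ z) = 0
    rw [dotProduct_mulVec, hvA, zero_dotProduct]
  obtain ⟨a, haker, har⟩ : ∃ a ∈ LinearMap.ker φ, a ∉ LinearMap.range A.mulVecLin := by
    by_contra hcon
    push Not at hcon
    have : LinearMap.ker φ ≤ LinearMap.range A.mulVecLin := hcon
    have := Submodule.finrank_mono this
    omega
  have hspan : Submodule.span K (Set.range fun i => A *ᵥ u i) ≤ LinearMap.range A.mulVecLin := by
    rw [Submodule.span_le]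
    rintro _ ⟨i, rfl⟩
    exact ⟨u i, rfl⟩
  have h4 : LinearIndependent K (Matrix.vecCons a fun i => A *ᵥ u i) := by
    rw [Matrix.vecCons, linearIndependent_finCons]
    exact ⟨hbli, fun h => har (hspan h)⟩
  have hspan4 : Submodule.span K (Set.range (Matrix.vecCons a fun i => A *ᵥ u i)) =
      LinearMap.ker φ := by
    apply Submodule.eq_of_le_of_finrank_eq
    · rw [Submodule.span_le]
      rintro _ ⟨i, rfl⟩
      refine Fin.cases ?_ (fun i => ?_) i
      · exact haker
      · exact hle ⟨u i, rfl⟩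
    · rw [finrank_span_eq_card h4, hker]; rfl
  set z₀ : Fin 5 → K := Pi.single i₀ 1 with hz₀
  have hz₀v : v ⬝ᵥ z₀ ≠ 0 := by rw [hz₀, dotProduct_single_one]; exact hi₀
  have h5 : LinearIndependent K (Matrix.vecCons z₀ (Matrix.vecCons a fun i => A *ᵥ u i)) := by
    rw [Matrix.vecCons, linearIndependent_finCons]
    refine ⟨h4, ?_⟩
    rw [hspan4, LinearMap.mem_ker, hφ]
    exact hz₀v
  have hdet : kv A u a ⬝ᵥ z₀ ≠ 0 := by
    rw [kv, cof_dot]
    have h6 : LinearIndependent K (Matrix.of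
      (Matrix.vecCons z₀ (Matrix.vecCons a fun i => A *ᵥ u i))).row := h5
    rw [Matrix.linearIndependent_rows_iff_isUnit, Matrix.isUnit_iff_isUnit_det] at h6
    exact h6.ne_zero
  have hkill : ∀ w ∈ LinearMap.ker φ, kv A u a ⬝ᵥ w = 0 := by
    intro w hw
    rw [kv, cof_dot]
    by_contra hne
    have h7 := Matrix.linearIndependent_rows_of_det_ne_zero hne
    have h8 : LinearIndependent K (Matrix.vecCons w (Matrix.vecCons a fun i => A *ᵥ u i)) := h7
    rw [Matrix.vecCons, linearIndependent_finCons] at h8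
    apply h8.2
    rw [hspan4]
    exact hw
  refine ⟨u, a, (kv A u a ⬝ᵥ z₀) / (v ⬝ᵥ z₀), div_ne_zero hdet hz₀v, ?_⟩
  ext j
  have h9 := hkill ((v ⬝ᵥ z₀) • Pi.single j 1 - (v ⬝ᵥ Pi.single j 1) • z₀) (by
    rw [LinearMap.mem_ker, hφ, dotProduct_sub, dotProduct_smul, dotProduct_smul]
    simp only [smul_eq_mul]
    ring)
  have hvj : v ⬝ᵥ Pi.single j 1 = v j := dotProduct_single_one v j
  have hkj : kv A u a ⬝ᵥ Pi.single j 1 = kv A u a j := dotProduct_single_one _ j
  rw [dotProduct_sub, dotProduct_smul, dotProduct_smul, hvj, hkj] at h9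
  simp only [smul_eq_mul, Pi.smul_apply] at h9 ⊢
  field_simp
  linear_combination h9

/-- polynomial form of the invariant -/
theorem JL_iff {V : Submodule K (Matrix (Fin 5) (Fin 5) K)} (hr : ∀ B ∈ V, B.rank ≤ 3) :
    JL V ↔ ∀ A ∈ V, ∀ A' ∈ V, ∀ C ∈ V, ∀ C' ∈ V, ∀ (u u' : Fin 3 → Fin 5 → K) (a a' : Fin 5 → K),
      Par (kv A u a ᵥ* C) (kv A' u' a' ᵥ* C') := by
  constructor
  · intro h A hA A' hA' C hC C' hC' u u' a a'
    by_cases h1 : A.rank = 3
    · by_cases h2 : A'.rank = 3
      · exact h A hA A' hA' h1 h2 _ _ (kv_vecMul (hr A hA) u a) (kv_vecMul (hr A' hA') u' a')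
          C hC C' hC'
      · have h3 := hr A' hA'
        rw [kv_eq_zero (A := A') (by omega), zero_vecMul]
        exact Par.zero_right _
    · have h3 := hr A hA
      rw [kv_eq_zero (A := A) (by omega), zero_vecMul]
      exact Par.zero_left _
  · intro h A hA A' hA' hAr hAr' v v' hv hv' C hC C' hC'
    by_cases h1 : v = 0
    · rw [h1, zero_vecMul]; exact Par.zero_left _
    by_cases h2 : v' = 0
    · rw [h2, zero_vecMul]; exact Par.zero_right _
    obtain ⟨u, a, c, hc, hk⟩ := exists_kv hAr h1 hv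
    obtain ⟨u', a', c', hc', hk'⟩ := exists_kv hAr' h2 hv'
    have h3 := h A hA A' hA' C hC C' hC' u u' a a'
    rw [hk, hk', smul_vecMul, smul_vecMul] at h3
    intro i j
    have h4 := h3 i j
    simp only [Pi.smul_apply, smul_eq_mul] at h4
    have h5 : c * c' * ((v ᵥ* C) i * (v' ᵥ* C') j - (v ᵥ* C) j * (v' ᵥ* C') i) = 0 := by
      linear_combination h4
    exact sub_eq_zero.mp ((mul_eq_zero.mp h5).resolve_left (mul_ne_zero hc hc'))

end Pool.Agent.Lib.MP_d51aa1_ag
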