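import Pool.Agent.Lib.MP_d51aa1_ag.Poly

set_option autoImplicit false

/-!
# Dimension of spaces of matrices of bounded rank
-/

open Matrix Module

namespace Pool.Agent.Lib.MP_d51aa1_ag

variable {K : Type*} [Field K]

section dim

variable {m k : Type*} [Fintype m] [Fintype k] [DecidableEq m] [DecidableEq k]

/-- the matrices `X` with `fromBlocks X 0 0 0 ∈ V` -/
def V0 (V : Submodule K (Matrix (m ⊕ k) (m ⊕ k) K)) : Submodule K (Matrix m m K) where
  carrier := {X | fromBlocks X 0 0 0 ∈ V}
  add_mem' := by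
    intro X Y hX hY
    have := V.add_mem hX hY
    rw [Matrix.fromBlocks_add] at this
    simpa using this
  zero_mem' := by
    have := V.zero_mem
    rw [← Matrix.fromBlocks_zero] at this
    exact this
  smul_mem' := by
    intro c X hX
    have := V.smul_mem c hX
    rw [Matrix.fromBlocks_smul] at this
    simpa using this

omit [Fintype m] [Fintype k] [DecidableEq m] [DecidableEq k] in
theorem mem_V0 {V : Submodule K (Matrix (m ⊕ k) (m ⊕ k) K)} {X : Matrix m m K} :
    X ∈ V0 V ↔ fromBlocks X 0 0 0 ∈ V := Iff.rfl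

/-- the off-diagonal blocks -/
def off : Matrix (m ⊕ k) (m ⊕ k) K →ₗ[K] (Matrix m k K × Matrix k m K) where
  toFun B := (B.toBlocks₁₂, B.toBlocks₂₁)
  map_add' _ _ := rfl
  map_smul' _ _ := rfl

/-- the pairing -/
def pair : (Matrix m k K × Matrix k m K) →ₗ[K] Dual K (Matrix m k K × Matrix k m K) :=
  LinearMap.mk₂ K (fun z z' => Matrix.trace (z.2 * z'.1) + Matrix.trace (z'.2 * z.1))
    (by intro a b c; simp only [Prod.fst_add, Prod.snd_add, Matrix.add_mul, Matrix.mul_add,
          Matrix.trace_add]; ring)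
    (by intro a b c; simp only [Prod.smul_fst, Prod.smul_snd, Matrix.smul_mul, Matrix.mul_smul,
          Matrix.trace_smul, smul_eq_mul]; ring)
    (by intro a b c; simp only [Prod.fst_add, Prod.snd_add, Matrix.add_mul, Matrix.mul_add,
          Matrix.trace_add]; ring)
    (by intro a b c; simp only [Prod.smul_fst, Prod.smul_snd, Matrix.smul_mul, Matrix.mul_smul,
          Matrix.trace_smul, smul_eq_mul]; ring)

omit [DecidableEq m] [DecidableEq k] in
theorem pair_apply (z z' : Matrix m k K × Matrix k m K) :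
    pair z z' = Matrix.trace (z.2 * z'.1) + Matrix.trace (z'.2 * z.1) := rfl

theorem pair_injective : Function.Injective (pair (K := K) (m := m) (k := k)) := by
  rw [injective_iff_map_eq_zero]
  intro z hz
  have h : ∀ z' : Matrix m k K × Matrix k m K,
      Matrix.trace (z.2 * z'.1) + Matrix.trace (z'.2 * z.1) = 0 := by
    intro z'
    rw [← pair_apply, hz]; rfl
  ext i j
  · have := h (0, Matrix.single j i 1)
    simp only [Matrix.mul_zero, Matrix.trace_zero, zero_add] at this
    simpa [Matrix.trace, Matrix.mul_apply, Matrix.single, Finset.sum_ite_eq, ite_and] using this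
  · have := h (Matrix.single j i 1, 0)
    simp only [Matrix.zero_mul, Matrix.trace_zero, add_zero] at this
    simpa [Matrix.trace, Matrix.mul_apply, Matrix.single, Finset.sum_ite_eq, ite_and] using this

theorem finrank_isotropic (W : Submodule K (Matrix m k K × Matrix k m K))
    (hW : ∀ z ∈ W, ∀ z' ∈ W, pair z z' = 0) :
    finrank K W ≤ Fintype.card m * Fintype.card k := by
  have h1 : finrank K W ≤ finrank K W.dualAnnihilator := by
    have hmap : ∀ z : W, pair (z : Matrix m k K × Matrix k m K) ∈ W.dualAnnihilator := by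
      intro z
      rw [Submodule.mem_dualAnnihilator]
      intro w hw
      exact hW z.1 z.2 w hw
    let f : W →ₗ[K] W.dualAnnihilator :=
      LinearMap.codRestrict _ (pair.comp W.subtype) hmap
    refine LinearMap.finrank_le_finrank_of_injective (f := f) ?_
    intro a b hab
    have := congrArg Subtype.val hab
    exact Subtype.ext (pair_injective this)
  have h2 := Subspace.finrank_add_finrank_dualAnnihilator_eq W
  have h3 : finrank K (Matrix m k K × Matrix k m K) = 2 * (Fintype.card m * Fintype.card k) := by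
    rw [Module.finrank_prod, Module.finrank_matrix, Module.finrank_matrix]
    simp only [Module.finrank_self, mul_one]
    ring
  omega

theorem finrank_le_add (V : Submodule K (Matrix (m ⊕ k) (m ⊕ k) K))
    (h22 : ∀ B ∈ V, B.toBlocks₂₂ = 0) (h0 : ∀ B ∈ V, B.toBlocks₂₁ * B.toBlocks₁₂ = 0) :
    finrank K V ≤ finrank K (V0 V) + Fintype.card m * Fintype.card k := by
  set φ : V →ₗ[K] (Matrix m k K × Matrix k m K) := off.comp V.subtype with hφ
  have h1 := LinearMap.finrank_range_add_finrank_ker φ
  have h2 : finrank K (LinearMap.range φ) ≤ Fintype.card m * Fintype.card k := by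
    apply finrank_isotropic
    rintro _ ⟨B, rfl⟩ _ ⟨C, rfl⟩
    have hB := h0 B.1 B.2
    have hC := h0 C.1 C.2
    have hBC := h0 (B.1 + C.1) (V.add_mem B.2 C.2)
    have e : (B.1 + C.1).toBlocks₂₁ * (B.1 + C.1).toBlocks₁₂ =
        B.1.toBlocks₂₁ * B.1.toBlocks₁₂ + C.1.toBlocks₂₁ * C.1.toBlocks₁₂ +
        (B.1.toBlocks₂₁ * C.1.toBlocks₁₂ + C.1.toBlocks₂₁ * B.1.toBlocks₁₂) := by
      have a1 : (B.1 + C.1).toBlocks₂₁ = B.1.toBlocks₂₁ + C.1.toBlocks₂₁ := rfl
      have a2 : (B.1 + C.1).toBlocks₁₂ = B.1.toBlocks₁₂ + C.1.toBlocks₁₂ := rfl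
      rw [a1, a2, Matrix.add_mul, Matrix.mul_add, Matrix.mul_add]
      abel
    rw [e, hB, hC, zero_add, zero_add] at hBC
    have := congrArg Matrix.trace hBC
    rw [Matrix.trace_add, Matrix.trace_zero] at this
    exact this
  have h3 : finrank K (LinearMap.ker φ) ≤ finrank K (V0 V) := by
    have hmem : ∀ B : LinearMap.ker φ, (B.1.1).toBlocks₁₁ ∈ V0 V := by
      intro B
      rw [mem_V0]
      have hB := B.2
      rw [LinearMap.mem_ker] at hB
      have e1 : B.1.1.toBlocks₁₂ = 0 := congrArg Prod.fst hB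
      have e2 : B.1.1.toBlocks₂₁ = 0 := congrArg Prod.snd hB
      have e3 := h22 B.1.1 B.1.2
      have e4 : fromBlocks B.1.1.toBlocks₁₁ 0 0 0 = B.1.1 := by
        conv_rhs => rw [← Matrix.fromBlocks_toBlocks B.1.1]
        rw [e1, e2, e3]
      rw [e4]
      exact B.1.2
    let f : LinearMap.ker φ →ₗ[K] V0 V :=
      { toFun := fun B => ⟨B.1.1.toBlocks₁₁, hmem B⟩
        map_add' := fun _ _ => rfl
        map_smul' := fun _ _ => rfl }
    refine LinearMap.finrank_le_finrank_of_injective (f := f) ?_
    rw [injective_iff_map_eq_zero]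
    intro B hB
    have hB2 := B.2
    rw [LinearMap.mem_ker] at hB2
    have e1 : B.1.1.toBlocks₁₂ = 0 := congrArg Prod.fst hB2
    have e2 : B.1.1.toBlocks₂₁ = 0 := congrArg Prod.snd hB2
    have e3 := h22 B.1.1 B.1.2
    have e4 : B.1.1.toBlocks₁₁ = 0 := congrArg Subtype.val hB
    apply Subtype.ext
    apply Subtype.ext
    rw [← Matrix.fromBlocks_toBlocks B.1.1, e1, e2, e3, e4]
    exact Matrix.fromBlocks_zero
  omega

/-- Flanders-type bound -/
theorem finrank_le_of_rank_le [Infinite K] (V : Submodule K (Matrix (m ⊕ k) (m ⊕ k) K))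
    (hE : (fromBlocks 1 0 0 0 : Matrix (m ⊕ k) (m ⊕ k) K) ∈ V)
    (hr : ∀ B ∈ V, B.rank ≤ Fintype.card m) :
    finrank K V ≤ Fintype.card m * Fintype.card m + Fintype.card m * Fintype.card k := by
  have h := fun B (hB : B ∈ V) => identities B (fun t => hr _ (V.add_mem hE (V.smul_mem t hB)))
  have h1 := finrank_le_add V (fun B hB => (h B hB).1) (fun B hB => by
    simpa using (h B hB).2 0)
  have h2 : finrank K (V0 V) ≤ Fintype.card m * Fintype.card m := by
    have := Submodule.finrank_le (V0 V)
    rw [Module.finrank_matrix] at this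
    simpa using this
  omega

end dim

end Pool.Agent.Lib.MP_d51aa1_ag
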