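import Pool.Agent.Lib.MP_d51aa1_ag.Main

set_option autoImplicit false

/-!
# The invariant separating the two parts of the Fano scheme
-/

open Matrix Module

namespace Pool.Agent.Lib.MP_d51aa1_ag

variable {K : Type*} [Field K]

/-- all `2 × 2` minors of the pair vanish -/
def Par {n : Type*} (a b : n → K) : Prop := ∀ i j, a i * b j = a j * b i

theorem Par.zero_left {n : Type*} (b : n → K) : Par 0 b := by intro i j; simp

theorem Par.zero_right {n : Type*} (a : n → K) : Par a 0 := by intro i j; simp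

theorem par_smul_smul {n : Type*} (x : n → K) (a b : K) : Par (a • x) (b • x) := by
  intro i j
  simp only [Pi.smul_apply, smul_eq_mul]; ring

theorem Par.exists_smul {n : Type*} {a b : n → K} (h : Par a b) (ha : a ≠ 0) :
    ∃ c : K, b = c • a :=
  exists_smul_of_minors ha fun i j => sub_eq_zero.mpr (h i j)

theorem Par.map {n n' : Type*} {a b : n → K} (h : Par a b) (R : (n → K) →ₗ[K] (n' → K)) :
    Par (R a) (R b) := by
  by_cases ha : a = 0
  · rw [ha, map_zero]; exact Par.zero_left _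
  · obtain ⟨c, rfl⟩ := h.exists_smul ha
    rw [map_smul]
    simpa using par_smul_smul (R a) 1 c

theorem Par.dot {n : Type*} [Fintype n] {a b : n → K} (h : Par a b) (x y : n → K) :
    (a ⬝ᵥ x) * (b ⬝ᵥ y) = (a ⬝ᵥ y) * (b ⬝ᵥ x) := by
  by_cases ha : a = 0
  · simp [ha]
  · obtain ⟨c, rfl⟩ := h.exists_smul ha
    rw [smul_dotProduct, smul_dotProduct, smul_eq_mul, smul_eq_mul]; ring

theorem par_of_dot {n : Type*} [Fintype n] [DecidableEq n] {a b : n → K}
    (h : ∀ x y : n → K, (a ⬝ᵥ x) * (b ⬝ᵥ y) = (a ⬝ᵥ y) * (b ⬝ᵥ x)) : Par a b := by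
  intro i j
  have := h (Pi.single i 1) (Pi.single j 1)
  simpa using this

/-- the invariant: the vectors `v C`, where `v` kills from the left some matrix of rank three
of the space and `C` is in the space, are pairwise parallel. -/
def JL {n : Type*} [Fintype n] (V : Submodule K (Matrix n n K)) : Prop :=
  ∀ A ∈ V, ∀ A' ∈ V, A.rank = 3 → A'.rank = 3 → ∀ v v' : n → K, v ᵥ* A = 0 → v' ᵥ* A' = 0 →
    ∀ C ∈ V, ∀ C' ∈ V, Par (v ᵥ* C) (v' ᵥ* C')

/-- the space of the transposed matrices -/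
def tr {n : Type*} (V : Submodule K (Matrix n n K)) : Submodule K (Matrix n n K) :=
  V.map (Matrix.transposeLinearEquiv n n K K).toLinearMap

theorem mem_tr {n : Type*} {V : Submodule K (Matrix n n K)} {B : Matrix n n K} :
    B ∈ tr V ↔ Bᵀ ∈ V := by
  constructor
  · rintro ⟨C, hC, rfl⟩
    exact hC
  · intro h
    exact ⟨Bᵀ, h, by simp⟩

theorem tr_tr {n : Type*} (V : Submodule K (Matrix n n K)) : tr (tr V) = V := by
  ext B
  rw [mem_tr, mem_tr, transpose_transpose]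

theorem finrank_tr {n : Type*} [Fintype n] (V : Submodule K (Matrix n n K)) :
    finrank K (tr V) = finrank K V :=
  LinearEquiv.finrank_map_eq (Matrix.transposeLinearEquiv n n K K) V

/-- transfer of the invariant along an equivalence of matrix spaces -/
theorem JL.transfer {n n' : Type*} [Fintype n] [Fintype n'] {V : Submodule K (Matrix n n K)}
    {V' : Submodule K (Matrix n' n' K)} (Φ : Matrix n n K → Matrix n' n' K)
    (L : (n → K) → (n' → K)) (R : (n → K) ≃ₗ[K] (n' → K)) (hΦ : ∀ B ∈ V, Φ B ∈ V')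
    (hr : ∀ B, (Φ B).rank = B.rank) (hLR : ∀ v B, L v ᵥ* Φ B = R (v ᵥ* B)) (h : JL V') : JL V := by
  intro A hA A' hA' hAr hAr' v v' hv hv' C hC C' hC'
  have h1 := h (Φ A) (hΦ A hA) (Φ A') (hΦ A' hA') (by rw [hr, hAr]) (by rw [hr, hAr'])
    (L v) (L v') (by rw [hLR, hv, map_zero]) (by rw [hLR, hv', map_zero])
    (Φ C) (hΦ C hC) (Φ C') (hΦ C' hC')
  rw [hLR, hLR] at h1
  have h2 := h1.map R.symm.toLinearMap
  simpa using h2

variable {V : Submodule K (Matrix (Fin 3 ⊕ Fin 2) (Fin 3 ⊕ Fin 2) K)}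

theorem vecMul_inl {m k : Type*} [Fintype m] [Fintype k] (v : m ⊕ k → K)
    (A : Matrix (m ⊕ k) (m ⊕ k) K) (j : m) :
    (v ᵥ* A) (Sum.inl j) = ((v ∘ Sum.inl) ᵥ* A.toBlocks₁₁) j + ((v ∘ Sum.inr) ᵥ* A.toBlocks₂₁) j := by
  simp [vecMul, dotProduct, Fintype.sum_sum_type, toBlocks₁₁, toBlocks₂₁]

theorem vecMul_inr {m k : Type*} [Fintype m] [Fintype k] (v : m ⊕ k → K)
    (A : Matrix (m ⊕ k) (m ⊕ k) K) (j : k) :
    (v ᵥ* A) (Sum.inr j) = ((v ∘ Sum.inl) ᵥ* A.toBlocks₁₂) j + ((v ∘ Sum.inr) ᵥ* A.toBlocks₂₂) j := by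
  simp [vecMul, dotProduct, Fintype.sum_sum_type, toBlocks₁₂, toBlocks₂₂]

/-- compression spaces of type zero: the image is contained in the first three coordinates -/
theorem JL_of_T0 (h0 : ∀ B ∈ V, B.toBlocks₂₁ = 0) (h22 : ∀ B ∈ V, B.toBlocks₂₂ = 0) : JL V := by
  intro A hA A' hA' hAr hAr' v v' hv hv' C hC C' hC'
  have key : v ∘ Sum.inl = 0 := by
    by_contra hp
    set N : Matrix (Fin 3) (Fin 3 ⊕ Fin 2) K := A.submatrix Sum.inl id with hN
    have h1 : (Matrix.of fun (_ : Unit) j => (v ∘ Sum.inl) j) * N = 0 := by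
      ext i j
      have := congrFun hv j
      rcases j with j | j
      · rw [vecMul_inl, h0 A hA, vecMul_zero] at this
        simpa [Matrix.mul_apply, vecMul, dotProduct, toBlocks₁₁, hN] using this
      · rw [vecMul_inr, h22 A hA, vecMul_zero] at this
        simpa [Matrix.mul_apply, vecMul, dotProduct, toBlocks₁₂, hN] using this
    have h2 := Matrix.rank_add_rank_le_card_of_mul_eq_zero h1
    have h3 : (Matrix.of fun (_ : Unit) j => (v ∘ Sum.inl) j).rank = 1 := by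
      have : LinearIndependent K (Matrix.of fun (_ : Unit) j => (v ∘ Sum.inl) j).row := by
        apply LinearIndependent.of_subsingleton ()
        intro h
        exact hp h
      rw [this.rank_matrix]; simp
    have h4 : A.rank ≤ N.rank := by
      have : A = (Matrix.of fun (i : Fin 3 ⊕ Fin 2) (j : Fin 3) =>
          Sum.elim (fun i => if i = j then (1 : K) else 0) (fun _ => 0) i) * N := by
        ext i j
        rcases i with i | i
        · simp [Matrix.mul_apply, hN]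
        · simp only [Matrix.mul_apply, Matrix.of_apply, Sum.elim_inr, zero_mul,
            Finset.sum_const_zero]
          rcases j with j | j
          · exact congrFun (congrFun (h0 A hA) i) j
          · exact congrFun (congrFun (h22 A hA) i) j
      rw [this]
      exact Matrix.rank_mul_le_right _ _
    rw [h3] at h2
    simp only [Fintype.card_fin] at h2
    omega
  have hvC : v ᵥ* C = 0 := by
    ext j
    rcases j with j | j
    · rw [vecMul_inl, key, h0 C hC]; simp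
    · rw [vecMul_inr, key, h22 C hC]; simp
  rw [hvC]
  exact Par.zero_left _

theorem T1_left {x : Fin 3 → K} (hx : x ≠ 0) (h22 : ∀ B ∈ V, B.toBlocks₂₂ = 0)
    (hT : ∀ B ∈ V, x ᵥ* B.toBlocks₁₂ = 0 ∧
    (∀ w, ∃ c : K, w ᵥ* B.toBlocks₂₁ = c • x) ∧ ∃ c : K, x ᵥ* B.toBlocks₁₁ = c • x)
    {A : Matrix (Fin 3 ⊕ Fin 2) (Fin 3 ⊕ Fin 2) K} (hA : A ∈ V) (hAr : A.rank = 3)
    {v : Fin 3 ⊕ Fin 2 → K} (hv : v ᵥ* A = 0) : ∃ c : K, v ∘ Sum.inl = c • x := by
  by_contra hcon
  push Not at hcon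
  obtain ⟨hx12, hx21, c', hx11⟩ := hT A hA
  obtain ⟨d, hd⟩ := hx21 (v ∘ Sum.inr)
  choose r hr using fun i : Fin 2 => hx21 (Pi.single i 1)
  set p := v ∘ Sum.inl with hp
  -- the factor of `A`
  set N : Matrix (Fin 3 ⊕ Unit) (Fin 3 ⊕ Fin 2) K :=
    Matrix.of (Sum.elim (fun i => A (Sum.inl i)) (fun _ => Sum.elim x (fun _ => 0))) with hN
  set L : Matrix (Fin 2) (Fin 3 ⊕ Unit) K :=
    Matrix.of ![Sum.elim x (fun _ => -c'), Sum.elim p (fun _ => d)] with hL
  have h1 : L * N = 0 := by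
    ext i j
    have e1 := congrFun hv j
    fin_cases i
    · rcases j with j | j
      · have e2 := congrFun hx11 j
        simp only [vecMul, dotProduct, toBlocks₁₁, of_apply, Pi.smul_apply, smul_eq_mul] at e2
        simp [Matrix.mul_apply, hN, hL, Fintype.sum_sum_type, e2]
      · have e2 := congrFun hx12 j
        simp only [vecMul, dotProduct, toBlocks₁₂, of_apply, Pi.zero_apply] at e2
        simp [Matrix.mul_apply, hN, hL, Fintype.sum_sum_type, e2]
    · rcases j with j | j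
      · rw [vecMul_inl, hd] at e1
        simp only [vecMul, dotProduct, toBlocks₁₁, of_apply, Pi.smul_apply, smul_eq_mul,
          Pi.zero_apply] at e1
        simpa [Matrix.mul_apply, hN, hL, hp, Fintype.sum_sum_type] using e1
      · rw [vecMul_inr, h22 A hA, vecMul_zero] at e1
        simp only [vecMul, dotProduct, toBlocks₁₂, of_apply, Pi.zero_apply, add_zero] at e1
        simpa [Matrix.mul_apply, hN, hL, hp, Fintype.sum_sum_type] using e1
  have h2 := Matrix.rank_add_rank_le_card_of_mul_eq_zero h1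
  have h3 : L.rank = 2 := by
    have : LinearIndependent K L.row := by
      have e : L.row = ![Sum.elim x (fun _ => -c'), Sum.elim p (fun _ => d)] := by
        ext i j
        fin_cases i <;> rfl
      rw [e, LinearIndependent.pair_iff']
      · intro a ha
        apply hcon a
        ext i
        have := congrFun ha (Sum.inl i)
        simpa using this.symm
      · intro h
        apply hx
        ext i
        have := congrFun h (Sum.inl i)
        simpa using this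
    rw [this.rank_matrix]; simp
  have h4 : A.rank ≤ N.rank := by
    have : A = (Matrix.of fun (i : Fin 3 ⊕ Fin 2) (j : Fin 3 ⊕ Unit) =>
        Sum.elim (fun i => Sum.elim (fun j => if i = j then (1 : K) else 0) (fun _ => 0) j)
          (fun i => Sum.elim (fun _ => 0) (fun _ => r i) j) i) * N := by
      ext i j
      rcases i with i | i
      · simp [Matrix.mul_apply, hN, Fintype.sum_sum_type]
      · have e3 : ∀ j, A.toBlocks₂₁ i j = r i * x j := by
          intro j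
          have := congrFun (hr i) j
          simpa using this
        rcases j with j | j
        · simp only [Matrix.mul_apply, Matrix.of_apply, Sum.elim_inr, Fintype.sum_sum_type,
            Sum.elim_inl, zero_mul, Finset.sum_const_zero, zero_add, hN]
          simpa [toBlocks₂₁] using e3 j
        · have e4 := congrFun (congrFun (h22 A hA) i) j
          simp only [Matrix.mul_apply, Matrix.of_apply, Sum.elim_inr, Fintype.sum_sum_type,
            Sum.elim_inl, zero_mul, Finset.sum_const_zero, zero_add, hN]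
          simpa [toBlocks₂₂] using e4
    rw [this]
    exact Matrix.rank_mul_le_right _ _
  rw [h3] at h2
  simp only [Fintype.card_sum, Fintype.card_fin, Fintype.card_unit] at h2
  omega

theorem JL_of_T1 (h22 : ∀ B ∈ V, B.toBlocks₂₂ = 0) (hT : T1 V) : JL V := by
  obtain ⟨x, hx, hT⟩ := hT
  intro A hA A' hA' hAr hAr' v v' hv hv' C hC C' hC'
  have key : ∀ A ∈ V, A.rank = 3 → ∀ v, v ᵥ* A = 0 → ∀ C ∈ V, ∃ c : K,
      v ᵥ* C = c • (Sum.elim x (fun _ => 0) : Fin 3 ⊕ Fin 2 → K) := by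
    intro A hA hAr v hv C hC
    obtain ⟨a, ha⟩ := T1_left hx h22 hT hA hAr hv
    obtain ⟨hx12, hx21, b, hx11⟩ := hT C hC
    obtain ⟨d, hd⟩ := hx21 (v ∘ Sum.inr)
    refine ⟨a * b + d, ?_⟩
    ext j
    rcases j with j | j
    · rw [vecMul_inl, ha, smul_vecMul, hx11, hd]
      simp; ring
    · rw [vecMul_inr, ha, smul_vecMul, hx12, h22 C hC]
      simp
  obtain ⟨a, ha⟩ := key A hA hAr v hv C hC
  obtain ⟨b, hb⟩ := key A' hA' hAr' v' hv' C' hC'
  rw [ha, hb]
  exact par_smul_smul _ _ _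

/-- rank of `E + t B` -/
theorem rank_eq_three (t : K) (B : Matrix (Fin 3 ⊕ Fin 2) (Fin 3 ⊕ Fin 2) K)
    (hdet : (1 + t • B.toBlocks₁₁).det ≠ 0) (hr : (fromBlocks 1 0 0 0 + t • B).rank ≤ 3) :
    (fromBlocks 1 0 0 0 + t • B).rank = 3 := by
  apply le_antisymm hr
  have h1 := Matrix.rank_of_det_ne_zero hdet
  have h2 := Matrix.rank_submatrix_le (fromBlocks 1 0 0 0 + t • B) (Sum.inl : Fin 3 → _)
    (Sum.inl : Fin 3 → _)
  have h3 : (fromBlocks 1 0 0 0 + t • B).submatrix Sum.inl Sum.inl = 1 + t • B.toBlocks₁₁ := by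
    ext i j
    simp [toBlocks₁₁]
  rw [h3, h1] at h2
  simpa using h2

theorem T_of_JL [Infinite K] (h : NF V) (hr : ∀ B ∈ V, B.rank ≤ 3) (hJ : JL V) :
    (∀ B ∈ V, B.toBlocks₂₁ = 0) ∨ T1 V := by
  by_cases h0 : ∀ B ∈ V, B.toBlocks₂₁ = 0
  · exact Or.inl h0
  right
  push Not at h0
  obtain ⟨C₂, hC₂, hC₂0⟩ := h0
  obtain ⟨i₂, j₂, hij₂⟩ : ∃ i j, C₂.toBlocks₂₁ i j ≠ 0 := by
    by_contra hcon
    push Not at hcon
    exact hC₂0 (by ext i j; exact hcon i j)
  -- the vectors `π`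
  have hX : ∀ B : Matrix (Fin 3 ⊕ Fin 2) (Fin 3 ⊕ Fin 2) K,
      ∀ i j, PolyFun (fun t : K => (1 + t • B.toBlocks₁₁) i j) := by
    intro B i j
    simp only [Matrix.add_apply, Matrix.smul_apply, smul_eq_mul]
    exact (PolyFun.const _).add (PolyFun.id.mul (PolyFun.const _))
  have hπ : ∀ (B : Matrix (Fin 3 ⊕ Fin 2) (Fin 3 ⊕ Fin 2) K) (q : Fin 2 → K) (i : Fin 3),
      PolyFun (fun t : K => (q ᵥ* (B.toBlocks₂₁ * (1 + t • B.toBlocks₁₁).adjugate)) i) := by
    intro B q i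
    refine PolyFun.vecMul (v := fun _ => q) ?_ (fun _ => PolyFun.const _) i
    exact PolyFun.mulMat (A := fun _ => B.toBlocks₂₁) (fun _ _ => PolyFun.const _)
      (fun a b => PolyFun.adjugate (hX B) a b)
  have hvec : ∀ B ∈ V, ∀ (q : Fin 2 → K) (t : K),
      (Sum.elim (-(t • (q ᵥ* (B.toBlocks₂₁ * (1 + t • B.toBlocks₁₁).adjugate))))
        ((1 + t • B.toBlocks₁₁).det • q)) ᵥ* (fromBlocks 1 0 0 0 + t • B) = 0 := by
    intro B hB q t
    have e11 : (fromBlocks 1 0 0 0 + t • B).toBlocks₁₁ = 1 + t • B.toBlocks₁₁ := by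
      ext i j; simp [toBlocks₁₁]
    have e12 : (fromBlocks 1 0 0 0 + t • B).toBlocks₁₂ = t • B.toBlocks₁₂ := by
      ext i j; simp [toBlocks₁₂]
    have e21 : (fromBlocks 1 0 0 0 + t • B).toBlocks₂₁ = t • B.toBlocks₂₁ := by
      ext i j; simp [toBlocks₂₁]
    have e22 : (fromBlocks 1 0 0 0 + t • B).toBlocks₂₂ = 0 := by
      have := h.h22 B hB
      ext i j
      have := congrFun (congrFun this i) j
      simp only [toBlocks₂₂, of_apply, Matrix.zero_apply] at this
      simp [toBlocks₂₂, this]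
    ext j
    rcases j with j | j
    · rw [vecMul_inl, e11, e21, Sum.elim_comp_inl, Sum.elim_comp_inr, neg_vecMul, smul_vecMul,
        vecMul_vecMul, Matrix.mul_assoc, Matrix.adjugate_mul, smul_vecMul, vecMul_smul,
        Matrix.mul_smul, Matrix.mul_one, vecMul_smul]
      simp only [Pi.neg_apply, Pi.smul_apply, smul_eq_mul, Pi.zero_apply]
      ring
    · rw [vecMul_inr, e12, e22, Sum.elim_comp_inl, Sum.elim_comp_inr, neg_vecMul, smul_vecMul,
        vecMul_smul, vecMul_vecMul, h.hadj B hB t]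
      simp
  have hmem : ∀ B ∈ V, ∀ t : K, fromBlocks 1 0 0 0 + t • B ∈ V :=
    fun B hB t => V.add_mem h.hE (V.smul_mem t hB)
  have hE : ∀ (p : Fin 3 → K) (q : Fin 2 → K),
      (Sum.elim p q) ᵥ* (fromBlocks 1 0 0 0 : Matrix (Fin 3 ⊕ Fin 2) (Fin 3 ⊕ Fin 2) K) =
      Sum.elim p 0 := by
    intro p q
    ext j
    rcases j with j | j
    · rw [vecMul_inl]; simp
    · rw [vecMul_inr]; simp
  -- parallel for generic parameters
  have key : ∀ B ∈ V, ∀ B' ∈ V, ∀ q q' : Fin 2 → K, ∀ t t' : K,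
      (t * (1 + t • B.toBlocks₁₁).det ≠ 0) → (t' * (1 + t' • B'.toBlocks₁₁).det ≠ 0) →
      Par (q ᵥ* (B.toBlocks₂₁ * (1 + t • B.toBlocks₁₁).adjugate))
        (q' ᵥ* (B'.toBlocks₂₁ * (1 + t' • B'.toBlocks₁₁).adjugate)) := by
    intro B hB B' hB' q q' t t' ht ht'
    have ht1 := left_ne_zero_of_mul ht
    have ht2 := right_ne_zero_of_mul ht
    have ht1' := left_ne_zero_of_mul ht'
    have ht2' := right_ne_zero_of_mul ht'
    have := hJ _ (hmem B hB t) _ (hmem B' hB' t') (rank_eq_three t B ht2 (hr _ (hmem B hB t)))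
      (rank_eq_three t' B' ht2' (hr _ (hmem B' hB' t'))) _ _ (hvec B hB q t) (hvec B' hB' q' t')
      _ h.hE _ h.hE
    rw [hE, hE] at this
    intro i j
    have h1 := this (Sum.inl i) (Sum.inl j)
    simp only [Sum.elim_inl, Pi.neg_apply, Pi.smul_apply, smul_eq_mul] at h1
    have h2 : t * t' * ((q ᵥ* (B.toBlocks₂₁ * (1 + t • B.toBlocks₁₁).adjugate)) i *
        (q' ᵥ* (B'.toBlocks₂₁ * (1 + t' • B'.toBlocks₁₁).adjugate)) j -
        (q ᵥ* (B.toBlocks₂₁ * (1 + t • B.toBlocks₁₁).adjugate)) j *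
        (q' ᵥ* (B'.toBlocks₂₁ * (1 + t' • B'.toBlocks₁₁).adjugate)) i) = 0 := by
      linear_combination h1
    exact sub_eq_zero.mp ((mul_eq_zero.mp h2).resolve_left (mul_ne_zero ht1 ht1'))
  have hdet : ∀ B : Matrix (Fin 3 ⊕ Fin 2) (Fin 3 ⊕ Fin 2) K,
      PolyFun (fun t : K => t * (1 + t • B.toBlocks₁₁).det) :=
    fun B => PolyFun.id.mul (PolyFun.det (hX B))
  have hgen : ∀ B : Matrix (Fin 3 ⊕ Fin 2) (Fin 3 ⊕ Fin 2) K,
      ∃ t : K, t * (1 + t • B.toBlocks₁₁).det ≠ 0 := by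
    intro B
    by_contra hcon
    push Not at hcon
    have := PolyFun.eq_zero (PolyFun.det (hX B)) PolyFun.id
      (fun t ht => (mul_eq_zero.mp (hcon t)).resolve_left ht) 1 one_ne_zero 0
    simp at this
  have key2 : ∀ B ∈ V, ∀ B' ∈ V, ∀ q q' : Fin 2 → K, ∀ t t' : K,
      (t * (1 + t • B.toBlocks₁₁).det ≠ 0) →
      Par (q ᵥ* (B.toBlocks₂₁ * (1 + t • B.toBlocks₁₁).adjugate))
        (q' ᵥ* (B'.toBlocks₂₁ * (1 + t' • B'.toBlocks₁₁).adjugate)) := by
    intro B hB B' hB' q q' t t' ht i j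
    obtain ⟨s, hs⟩ := hgen B'
    have := PolyFun.eq_zero (f := fun t' : K =>
        (q ᵥ* (B.toBlocks₂₁ * (1 + t • B.toBlocks₁₁).adjugate)) i *
        (q' ᵥ* (B'.toBlocks₂₁ * (1 + t' • B'.toBlocks₁₁).adjugate)) j -
        (q ᵥ* (B.toBlocks₂₁ * (1 + t • B.toBlocks₁₁).adjugate)) j *
        (q' ᵥ* (B'.toBlocks₂₁ * (1 + t' • B'.toBlocks₁₁).adjugate)) i)
      (((PolyFun.const _).mul (hπ B' q' j)).sub ((PolyFun.const _).mul (hπ B' q' i)))
      (hdet B') (fun t' ht' => sub_eq_zero.mpr (key B hB B' hB' q q' t t' ht ht' i j)) s hs t'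
    exact sub_eq_zero.mp this
  have key3 : ∀ B ∈ V, ∀ B' ∈ V, ∀ q q' : Fin 2 → K, ∀ t t' : K,
      Par (q ᵥ* (B.toBlocks₂₁ * (1 + t • B.toBlocks₁₁).adjugate))
        (q' ᵥ* (B'.toBlocks₂₁ * (1 + t' • B'.toBlocks₁₁).adjugate)) := by
    intro B hB B' hB' q q' t t' i j
    obtain ⟨s, hs⟩ := hgen B
    have := PolyFun.eq_zero (f := fun t : K =>
        (q ᵥ* (B.toBlocks₂₁ * (1 + t • B.toBlocks₁₁).adjugate)) i *
        (q' ᵥ* (B'.toBlocks₂₁ * (1 + t' • B'.toBlocks₁₁).adjugate)) j -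
        (q ᵥ* (B.toBlocks₂₁ * (1 + t • B.toBlocks₁₁).adjugate)) j *
        (q' ᵥ* (B'.toBlocks₂₁ * (1 + t' • B'.toBlocks₁₁).adjugate)) i)
      (((hπ B q i).mul (PolyFun.const _)).sub ((hπ B q j).mul (PolyFun.const _)))
      (hdet B) (fun t ht => sub_eq_zero.mpr (key2 B hB B' hB' q q' t t' ht i j)) s hs t
    exact sub_eq_zero.mp this
  -- the vector `x`
  set x : Fin 3 → K := Pi.single i₂ 1 ᵥ* C₂.toBlocks₂₁ with hxdef
  have hx : x ≠ 0 := by
    intro h'
    have := congrFun h' j₂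
    simp only [hxdef, single_one_vecMul, Pi.zero_apply] at this
    exact hij₂ this
  have hxt : ∀ B ∈ V, ∀ q : Fin 2 → K, ∀ t : K,
      ∃ c : K, q ᵥ* (B.toBlocks₂₁ * (1 + t • B.toBlocks₁₁).adjugate) = c • x := by
    intro B hB q t
    have := key3 C₂ hC₂ B hB (Pi.single i₂ 1) q 0 t
    simp only [zero_smul, add_zero, Matrix.adjugate_one, Matrix.mul_one] at this
    exact this.exists_smul hx
  have hx0 : ∀ B ∈ V, ∀ q : Fin 2 → K, ∃ c : K, q ᵥ* B.toBlocks₂₁ = c • x := by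
    intro B hB q
    have := hxt B hB q 0
    simpa using this
  have hne : ∀ B ∈ V, B.toBlocks₂₁ i₂ j₂ ≠ 0 →
      ∃ c : K, c ≠ 0 ∧ Pi.single i₂ 1 ᵥ* B.toBlocks₂₁ = c • x := by
    intro B hB hne
    obtain ⟨c, hc⟩ := hx0 B hB (Pi.single i₂ 1)
    refine ⟨c, ?_, hc⟩
    rintro rfl
    have := congrFun hc j₂
    simp only [single_one_vecMul, zero_smul, Pi.zero_apply] at this
    exact hne this
  refine ⟨x, hx, fun B hB => ⟨?_, hx0 B hB, ?_⟩⟩
  · ext j
    refine irr V (f := fun B => B.toBlocks₂₁ i₂ j₂) (g := fun B => (x ᵥ* B.toBlocks₁₂) j)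
      (ent21 _ _) (PolyAff.vecMul (v := fun _ => x) ent12 (fun _ => PolyAff.const _) j) ?_
      ⟨C₂, hC₂, hij₂⟩ B hB
    intro B hB hneB
    obtain ⟨c, hc0, hc⟩ := hne B hB hneB
    have h1 : (Pi.single i₂ 1 ᵥ* B.toBlocks₂₁) ᵥ* B.toBlocks₁₂ = 0 := by
      rw [vecMul_vecMul, h.h0 hB, vecMul_zero]
    rw [hc, smul_vecMul] at h1
    rw [(smul_eq_zero.mp h1).resolve_left hc0]
    rfl
  · apply exists_smul_of_minors hx
    intro i j
    refine irr V (f := fun B => B.toBlocks₂₁ i₂ j₂)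
      (g := fun B => x i * (x ᵥ* B.toBlocks₁₁) j - x j * (x ᵥ* B.toBlocks₁₁) i)
      (ent21 _ _) (((PolyAff.const _).mul
        (PolyAff.vecMul (v := fun _ => x) ent11 (fun _ => PolyAff.const _) j)).sub
        ((PolyAff.const _).mul
        (PolyAff.vecMul (v := fun _ => x) ent11 (fun _ => PolyAff.const _) i))) ?_
      ⟨C₂, hC₂, hij₂⟩ B hB
    intro B hB hneB
    obtain ⟨c, hc0, hc⟩ := hne B hB hneB
    obtain ⟨t, ht⟩ := hgen B
    have ht1 := left_ne_zero_of_mul ht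
    have ht2 := right_ne_zero_of_mul ht
    obtain ⟨γ, hγ⟩ := hxt B hB (Pi.single i₂ 1) t
    have h1 : (Pi.single i₂ 1 ᵥ* (B.toBlocks₂₁ * (1 + t • B.toBlocks₁₁).adjugate)) ᵥ*
        (1 + t • B.toBlocks₁₁) = (1 + t • B.toBlocks₁₁).det • (c • x) := by
      rw [vecMul_vecMul, Matrix.mul_assoc, Matrix.adjugate_mul, Matrix.mul_smul, Matrix.mul_one,
        vecMul_smul, hc]
    rw [hγ, smul_vecMul, vecMul_add, vecMul_one, vecMul_smul] at h1
    have hγ0 : γ ≠ 0 := by
      rintro rfl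
      rw [zero_smul, smul_smul] at h1
      exact (smul_ne_zero (mul_ne_zero ht2 hc0) hx) h1.symm
    have h2 : ∃ e : K, x ᵥ* B.toBlocks₁₁ = e • x := by
      refine ⟨t⁻¹ * (γ⁻¹ * ((1 + t • B.toBlocks₁₁).det * c) - 1), ?_⟩
      have h3 : x + t • (x ᵥ* B.toBlocks₁₁) = (γ⁻¹ * ((1 + t • B.toBlocks₁₁).det * c)) • x := by
        rw [mul_smul, mul_smul, ← h1, smul_smul, inv_mul_cancel₀ hγ0, one_smul]
      have h4 : t • (x ᵥ* B.toBlocks₁₁) = (γ⁻¹ * ((1 + t • B.toBlocks₁₁).det * c) - 1) • x := by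
        rw [sub_smul, ← h3, one_smul]; abel
      rw [mul_smul, ← h4, smul_smul, inv_mul_cancel₀ ht1, one_smul]
    obtain ⟨e, he⟩ := h2
    rw [he]
    exact minors_of_smul x e i j

end Pool.Agent.Lib.MP_d51aa1_ag
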