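import Pool.Agent.Lib.MP_d51aa1_ag.Classify

set_option autoImplicit false

/-!
# Classification of large spaces of `5 × 5` matrices of rank at most three: main argument
-/

open Matrix Module

namespace Pool.Agent.Lib.MP_d51aa1_ag

variable {K : Type*} [Field K] {V : Submodule K (Matrix (Fin 3 ⊕ Fin 2) (Fin 3 ⊕ Fin 2) K)}

/-- compression spaces of the first kind -/
def T1 (V : Submodule K (Matrix (Fin 3 ⊕ Fin 2) (Fin 3 ⊕ Fin 2) K)) : Prop :=
  ∃ x : Fin 3 → K, x ≠ 0 ∧ ∀ B ∈ V, x ᵥ* B.toBlocks₁₂ = 0 ∧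
    (∀ w, ∃ c : K, w ᵥ* B.toBlocks₂₁ = c • x) ∧ ∃ c : K, x ᵥ* B.toBlocks₁₁ = c • x

/-- compression spaces of the second kind -/
def T2 (V : Submodule K (Matrix (Fin 3 ⊕ Fin 2) (Fin 3 ⊕ Fin 2) K)) : Prop :=
  ∃ y : Fin 3 → K, y ≠ 0 ∧ ∀ B ∈ V, B.toBlocks₂₁ *ᵥ y = 0 ∧
    (∀ v, ∃ c : K, B.toBlocks₁₂ *ᵥ v = c • y) ∧ ∃ c : K, B.toBlocks₁₁ *ᵥ y = c • y

/-- evaluation at a vector -/
def evalAt (y : Fin 3 → K) : Matrix (Fin 3) (Fin 3) K →ₗ[K] (Fin 3 → K) where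
  toFun X := X *ᵥ y
  map_add' X Y := Matrix.add_mulVec X Y y
  map_smul' c X := Matrix.smul_mulVec c X y

theorem evalAt_apply (y : Fin 3 → K) (X : Matrix (Fin 3) (Fin 3) K) : evalAt y X = X *ᵥ y := rfl

theorem coord_zero {y v u : Fin 3 → K} (h : LinearIndependent K ![y, v, u]) (a b c : K) :
    (basis3 h).coord 0 (a • y + b • v + c • u) = a := by
  have e0 : (basis3 h).coord 0 y = 1 := by
    rw [← congrArg ((basis3 h).coord 0) (basis3_zero h)]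
    simp
  have e1 : (basis3 h).coord 0 v = 0 := by
    rw [← congrArg ((basis3 h).coord 0) (basis3_one h)]
    simp
  have e2 : (basis3 h).coord 0 u = 0 := by
    rw [← congrArg ((basis3 h).coord 0) (basis3_two h)]
    simp
  rw [map_add, map_add, map_smul, map_smul, map_smul, e0, e1, e2]
  simp

theorem coord_one {y v u : Fin 3 → K} (h : LinearIndependent K ![y, v, u]) (a b c : K) :
    (basis3 h).coord 1 (a • y + b • v + c • u) = b := by
  have e0 : (basis3 h).coord 1 y = 0 := by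
    rw [← congrArg ((basis3 h).coord 1) (basis3_zero h)]
    simp
  have e1 : (basis3 h).coord 1 v = 1 := by
    rw [← congrArg ((basis3 h).coord 1) (basis3_one h)]
    simp
  have e2 : (basis3 h).coord 1 u = 0 := by
    rw [← congrArg ((basis3 h).coord 1) (basis3_two h)]
    simp
  rw [map_add, map_add, map_smul, map_smul, map_smul, e0, e1, e2]
  simp

theorem eig_two {y y' : Fin 3 → K} (hy : y ≠ 0) (hy' : ∀ c : K, y' ≠ c • y)
    (hE : ∀ s t : K, Eig V (s • y + t • y')) : finrank K (V0 V) ≤ 4 := by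
  obtain ⟨u, hu⟩ := exists_third hy hy'
  let Θ : V0 V →ₗ[K] K × (Fin 3 → K) :=
    (LinearMap.prod (((basis3 hu).coord 0).comp (evalAt y)) (evalAt u)).comp (V0 V).subtype
  have h4 : finrank K (K × (Fin 3 → K)) = 4 := by simp
  rw [← h4]
  refine LinearMap.finrank_le_finrank_of_injective (f := Θ) ?_
  rw [injective_iff_map_eq_zero]
  rintro ⟨X, hX⟩ h0
  have hc : (basis3 hu).coord 0 (X *ᵥ y) = 0 := congrArg Prod.fst h0
  have hXu : X *ᵥ u = 0 := congrArg Prod.snd h0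
  obtain ⟨a, ha⟩ := hE 1 0 X hX
  obtain ⟨b, hb⟩ := hE 0 1 X hX
  obtain ⟨c, hc'⟩ := hE 1 1 X hX
  simp only [one_smul, zero_smul, add_zero, zero_add] at ha hb hc'
  rw [mulVec_add, ha, hb, smul_add] at hc'
  have e : a • y + b • y' + (0 : K) • u = c • y + c • y' + (0 : K) • u := by rw [hc']
  obtain ⟨e1, e2, -⟩ := coeff_unique hu e
  have ha0 : a = 0 := by
    rw [ha] at hc
    have := coord_zero hu a 0 0
    simp only [zero_smul, add_zero] at this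
    rw [this] at hc
    exact hc
  have hb0 : b = 0 := by rw [e2, ← e1, ha0]
  rw [ha0, zero_smul] at ha
  rw [hb0, zero_smul] at hb
  have : X = 0 := mat_eq_zero hu ha hb hXu
  simp [this]

theorem scalar_quot {y v u : Fin 3 → K} (h : LinearIndependent K ![y, v, u])
    (hy : Eig V y) (h1 : ∀ X ∈ V0 V, ∃ a b : K, X *ᵥ v = a • y + b • v)
    (h2 : ∀ X ∈ V0 V, ∃ a b : K, X *ᵥ u = a • y + b • u)
    (h3 : ∀ X ∈ V0 V, ∃ a b : K, X *ᵥ (v + u) = a • y + b • (v + u)) :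
    finrank K (V0 V) ≤ 4 := by
  let Θ : V0 V →ₗ[K] (K × K) × (K × K) :=
    (LinearMap.prod (LinearMap.prod (((basis3 h).coord 0).comp (evalAt y))
      (((basis3 h).coord 0).comp (evalAt v))) (LinearMap.prod (((basis3 h).coord 1).comp (evalAt v))
      (((basis3 h).coord 0).comp (evalAt u)))).comp (V0 V).subtype
  have h4 : finrank K ((K × K) × (K × K)) = 4 := by simp
  rw [← h4]
  refine LinearMap.finrank_le_finrank_of_injective (f := Θ) ?_
  rw [injective_iff_map_eq_zero]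
  rintro ⟨X, hX⟩ h0
  have c1 : (basis3 h).coord 0 (X *ᵥ y) = 0 := congrArg (fun z => z.1.1) h0
  have c2 : (basis3 h).coord 0 (X *ᵥ v) = 0 := congrArg (fun z => z.1.2) h0
  have c3 : (basis3 h).coord 1 (X *ᵥ v) = 0 := congrArg (fun z => z.2.1) h0
  have c4 : (basis3 h).coord 0 (X *ᵥ u) = 0 := congrArg (fun z => z.2.2) h0
  obtain ⟨l, hl⟩ := hy X hX
  obtain ⟨a, c, hac⟩ := h1 X hX
  obtain ⟨b, d, hbd⟩ := h2 X hX
  obtain ⟨e, f, hef⟩ := h3 X hX
  have el : X *ᵥ y = l • y + (0 : K) • v + (0 : K) • u := by simp [hl]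
  have ea : X *ᵥ v = a • y + c • v + (0 : K) • u := by simp [hac]
  have eb : X *ᵥ u = b • y + (0 : K) • v + d • u := by simp [hbd]
  rw [el, coord_zero] at c1
  rw [ea, coord_zero] at c2
  rw [ea, coord_one] at c3
  rw [eb, coord_zero] at c4
  rw [mulVec_add, hac, hbd] at hef
  have e' : (a + b) • y + c • v + d • u = e • y + f • v + f • u := by
    rw [add_smul, ← sub_eq_zero]
    rw [← sub_eq_zero] at hef
    rw [← hef, smul_add]
    abel
  obtain ⟨-, f1, f2⟩ := coeff_unique h e'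
  have hX0 : X = 0 := by
    apply mat_eq_zero h
    · rw [hl, c1, zero_smul]
    · rw [hac, c2, c3, zero_smul, zero_smul, add_zero]
    · rw [hbd, c4, f2, ← f1, c3, zero_smul, zero_smul, add_zero]
  simp [hX0]

theorem common_y [Infinite K] (hd : 5 ≤ finrank K (V0 V))
    (hEig : ∀ C ∈ V, ∀ v, Eig V (C.toBlocks₁₂ *ᵥ v)) (h3 : ∃ C ∈ V, C.toBlocks₁₂ ≠ 0) :
    ∃ y : Fin 3 → K, y ≠ 0 ∧ Eig V y ∧ ∀ C ∈ V, ∀ v, ∃ c : K, C.toBlocks₁₂ *ᵥ v = c • y := by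
  -- different matrices, same vector
  have a1 : ∀ C ∈ V, ∀ D ∈ V, ∀ v, C.toBlocks₁₂ *ᵥ v ≠ 0 →
      ∃ c : K, D.toBlocks₁₂ *ᵥ v = c • (C.toBlocks₁₂ *ᵥ v) := by
    intro C hC D hD v hne
    by_contra hcon
    push Not at hcon
    have := eig_two (V := V) hne hcon (fun s t => by
      have h := hEig (s • C + t • D) (V.add_mem (V.smul_mem s hC) (V.smul_mem t hD)) v
      have e : (s • C + t • D).toBlocks₁₂ = s • C.toBlocks₁₂ + t • D.toBlocks₁₂ := rfl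
      rw [e, add_mulVec, smul_mulVec, smul_mulVec] at h
      exact h)
    omega
  have a2 : ∀ C ∈ V, ∀ v v', C.toBlocks₁₂ *ᵥ v ≠ 0 →
      ∃ c : K, C.toBlocks₁₂ *ᵥ v' = c • (C.toBlocks₁₂ *ᵥ v) := by
    intro C hC v v' hne
    by_contra hcon
    push Not at hcon
    have := eig_two (V := V) hne hcon (fun s t => by
      have h := hEig C hC (s • v + t • v')
      rw [mulVec_add, mulVec_smul, mulVec_smul] at h
      exact h)
    omega
  obtain ⟨C, hC, hC0⟩ := h3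
  have hv : ∃ v, C.toBlocks₁₂ *ᵥ v ≠ 0 := by
    by_contra h
    push Not at h
    apply hC0
    ext i j
    have := congrFun (h (Pi.single j 1)) i
    simpa using this
  obtain ⟨v, hv⟩ := hv
  refine ⟨C.toBlocks₁₂ *ᵥ v, hv, hEig C hC v, ?_⟩
  intro D hD v'
  obtain ⟨α, hα⟩ := a1 C hC D hD v hv
  obtain ⟨β, hβ⟩ := a2 C hC v v' hv
  -- choose s ≠ 0 with 1 + s α ≠ 0
  have hs : ∃ s : K, s ≠ 0 ∧ 1 + s * α ≠ 0 := by
    classical
    obtain ⟨s, -, hs⟩ := Set.Infinite.exists_notMem_finset (Set.infinite_univ (α := K))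
      ({0, -α⁻¹} : Finset K)
    simp only [Finset.mem_insert, Finset.mem_singleton, not_or] at hs
    refine ⟨s, hs.1, ?_⟩
    intro h
    by_cases hα0 : α = 0
    · rw [hα0] at h; simp at h
    · apply hs.2
      field_simp
      linear_combination h
  obtain ⟨s, hs0, hs1⟩ := hs
  have hF : C + s • D ∈ V := V.add_mem hC (V.smul_mem s hD)
  have e : (C + s • D).toBlocks₁₂ = C.toBlocks₁₂ + s • D.toBlocks₁₂ := rfl
  have e1 : (C + s • D).toBlocks₁₂ *ᵥ v = (1 + s * α) • (C.toBlocks₁₂ *ᵥ v) := by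
    rw [e, add_mulVec, smul_mulVec, hα, smul_smul, add_smul, one_smul]
  have e2 : (C + s • D).toBlocks₁₂ *ᵥ v' = β • (C.toBlocks₁₂ *ᵥ v) + s • (D.toBlocks₁₂ *ᵥ v') := by
    rw [e, add_mulVec, smul_mulVec, hβ]
  obtain ⟨γ, hγ⟩ := a2 (C + s • D) hF v v' (by
    rw [e1]
    exact smul_ne_zero hs1 hv)
  rw [e1, e2, smul_smul] at hγ
  refine ⟨s⁻¹ * (γ * (1 + s * α) - β), ?_⟩
  have e3 : s • (D.toBlocks₁₂ *ᵥ v') = (γ * (1 + s * α) - β) • (C.toBlocks₁₂ *ᵥ v) := by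
    rw [sub_smul, ← hγ]; abel
  rw [← smul_smul, ← e3, smul_smul, inv_mul_cancel₀ hs0, one_smul]

theorem one_side [Infinite K] (h : NF V) (hd : 5 ≤ finrank K (V0 V))
    (hEig : ∀ C ∈ V, ∀ v, Eig V (C.toBlocks₁₂ *ᵥ v)) (h3 : ∃ C ∈ V, C.toBlocks₁₂ ≠ 0)
    (h0 : ∃ C ∈ V, C.toBlocks₂₁ ≠ 0) : T1 V ∨ T2 V := by
  obtain ⟨y, hy, hyE, hyC⟩ := common_y hd hEig h3
  -- an entry of `C₁₂` which is nonzero somewhere
  obtain ⟨C₁, hC₁, hC₁0⟩ := h3
  obtain ⟨i₁, j₁, hij₁⟩ : ∃ i j, C₁.toBlocks₁₂ i j ≠ 0 := by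
    by_contra hcon
    push Not at hcon
    exact hC₁0 (by ext i j; exact hcon i j)
  -- generic nonvanishing of the coefficient
  have hcol : ∀ C ∈ V, C.toBlocks₁₂ i₁ j₁ ≠ 0 → ∃ c : K, c ≠ 0 ∧
      C.toBlocks₁₂ *ᵥ (Pi.single j₁ 1) = c • y := by
    intro C hC hne
    obtain ⟨c, hc⟩ := hyC C hC (Pi.single j₁ 1)
    refine ⟨c, ?_, hc⟩
    rintro rfl
    have := congrFun hc i₁
    simp only [mulVec_single_one, zero_smul, Pi.zero_apply] at this
    exact hne this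
  have b1 : ∀ C ∈ V, C.toBlocks₂₁ *ᵥ y = 0 := by
    intro C hC
    ext k
    refine irr V (f := fun B => B.toBlocks₁₂ i₁ j₁) (g := fun B => (B.toBlocks₂₁ *ᵥ y) k)
      (ent12 _ _) (PolyAff.mulVec (v := fun _ => y) ent21 (fun _ => PolyAff.const _) k) ?_
      ⟨C₁, hC₁, hij₁⟩ C hC
    intro B hB hne
    obtain ⟨c, hc0, hc⟩ := hcol B hB hne
    have h' := h.h0 hB
    have : B.toBlocks₂₁ *ᵥ (B.toBlocks₁₂ *ᵥ (Pi.single j₁ 1)) = 0 := by
      rw [mulVec_mulVec, h', zero_mulVec]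
    rw [hc, mulVec_smul] at this
    rw [(smul_eq_zero.mp this).resolve_left hc0]
    rfl
  have b2 : ∀ C ∈ V, C.toBlocks₂₁ *ᵥ (C.toBlocks₁₁ *ᵥ y) = 0 := by
    intro C hC
    ext k
    refine irr V (f := fun B => B.toBlocks₁₂ i₁ j₁)
      (g := fun B => (B.toBlocks₂₁ *ᵥ (B.toBlocks₁₁ *ᵥ y)) k)
      (ent12 _ _) (PolyAff.mulVec ent21
        (PolyAff.mulVec (v := fun _ => y) ent11 (fun _ => PolyAff.const _)) k) ?_
      ⟨C₁, hC₁, hij₁⟩ C hC
    intro B hB hne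
    obtain ⟨c, hc0, hc⟩ := hcol B hB hne
    have h' := h.h1 hB
    have : B.toBlocks₂₁ *ᵥ (B.toBlocks₁₁ *ᵥ (B.toBlocks₁₂ *ᵥ (Pi.single j₁ 1))) = 0 := by
      rw [mulVec_mulVec, mulVec_mulVec, h', zero_mulVec]
    rw [hc, mulVec_smul, mulVec_smul] at this
    rw [(smul_eq_zero.mp this).resolve_left hc0]
    rfl
  have b3 : ∀ C ∈ V, C.toBlocks₂₁ *ᵥ (C.toBlocks₁₁ *ᵥ (C.toBlocks₁₁ *ᵥ y)) = 0 := by
    intro C hC
    ext k
    refine irr V (f := fun B => B.toBlocks₁₂ i₁ j₁)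
      (g := fun B => (B.toBlocks₂₁ *ᵥ (B.toBlocks₁₁ *ᵥ (B.toBlocks₁₁ *ᵥ y))) k)
      (ent12 _ _) (PolyAff.mulVec ent21 (PolyAff.mulVec ent11
        (PolyAff.mulVec (v := fun _ => y) ent11 (fun _ => PolyAff.const _))) k) ?_
      ⟨C₁, hC₁, hij₁⟩ C hC
    intro B hB hne
    obtain ⟨c, hc0, hc⟩ := hcol B hB hne
    have h' := h.h2 hB
    have : B.toBlocks₂₁ *ᵥ (B.toBlocks₁₁ *ᵥ (B.toBlocks₁₁ *ᵥ
        (B.toBlocks₁₂ *ᵥ (Pi.single j₁ 1)))) = 0 := by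
      rw [mulVec_mulVec, mulVec_mulVec, mulVec_mulVec, h', zero_mulVec]
    rw [hc, mulVec_smul, mulVec_smul, mulVec_smul] at this
    rw [(smul_eq_zero.mp this).resolve_left hc0]
    rfl
  have b4 : ∀ C ∈ V, ∀ X ∈ V0 V, C.toBlocks₂₁ *ᵥ (X *ᵥ (C.toBlocks₁₁ *ᵥ y)) = 0 := by
    intro C hC X hX
    obtain ⟨D, hD, e1, -, e3⟩ := add_mem_V0 hC hX
    have h' := b3 D hD
    obtain ⟨l, hl⟩ := hyE X hX
    rw [e1, e3] at h'
    simp only [add_mulVec, mulVec_add, hl, mulVec_smul, b1 C hC, b2 C hC, b3 C hC, smul_zero,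
      add_zero, zero_add] at h'
    exact h'
  -- the main dichotomy
  by_cases hc : ∀ C ∈ V, ∃ c : K, C.toBlocks₁₁ *ᵥ y = c • y
  · right
    exact ⟨y, hy, fun B hB => ⟨b1 B hB, hyC B hB, hc B hB⟩⟩
  push Not at hc
  obtain ⟨C₀, hC₀, hv₀⟩ := hc
  left
  by_cases hα : ∀ C ∈ V, ∃ a b : K, C.toBlocks₁₁ *ᵥ y = a • y + b • (C₀.toBlocks₁₁ *ᵥ y)
  · -- case (α)
    obtain ⟨x, hx, hxy, hxv⟩ := exists_orth hy hv₀
    obtain ⟨p, q, hpq⟩ := exists_minor_ne_zero hy hv₀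
    set v₀ := C₀.toBlocks₁₁ *ᵥ y with hv₀def
    have hcoef : ∀ B ∈ V, y p * (B.toBlocks₁₁ *ᵥ y) q - y q * (B.toBlocks₁₁ *ᵥ y) p ≠ 0 →
        ∃ a b : K, b ≠ 0 ∧ B.toBlocks₁₁ *ᵥ y = a • y + b • v₀ := by
      intro B hB hne
      obtain ⟨a, b, hab⟩ := hα B hB
      refine ⟨a, b, ?_, hab⟩
      rintro rfl
      apply hne
      rw [hab, zero_smul, add_zero]
      exact minors_of_smul y a p q
    have hpoly : PolyAff (fun B : Matrix (Fin 3 ⊕ Fin 2) (Fin 3 ⊕ Fin 2) K =>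
        y p * (B.toBlocks₁₁ *ᵥ y) q - y q * (B.toBlocks₁₁ *ᵥ y) p) :=
      ((PolyAff.const _).mul
        (PolyAff.mulVec (v := fun _ => y) ent11 (fun _ => PolyAff.const _) q)).sub
        ((PolyAff.const _).mul
        (PolyAff.mulVec (v := fun _ => y) ent11 (fun _ => PolyAff.const _) p))
    have d1 : ∀ C ∈ V, C.toBlocks₂₁ *ᵥ v₀ = 0 := by
      intro C hC
      ext k
      refine irr V (g := fun B => (B.toBlocks₂₁ *ᵥ v₀) k) hpoly
        (PolyAff.mulVec (v := fun _ => v₀) ent21 (fun _ => PolyAff.const _) k) ?_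
        ⟨C₀, hC₀, hpq⟩ C hC
      intro B hB hne
      obtain ⟨a, b, hb, hab⟩ := hcoef B hB hne
      have h' := b2 B hB
      rw [hab, mulVec_add, mulVec_smul, mulVec_smul, b1 B hB, smul_zero, zero_add] at h'
      rw [(smul_eq_zero.mp h').resolve_left hb]
      rfl
    have d2 : ∀ C ∈ V, C.toBlocks₂₁ *ᵥ (C.toBlocks₁₁ *ᵥ v₀) = 0 := by
      intro C hC
      ext k
      refine irr V (g := fun B => (B.toBlocks₂₁ *ᵥ (B.toBlocks₁₁ *ᵥ v₀)) k) hpoly
        (PolyAff.mulVec ent21 (PolyAff.mulVec (v := fun _ => v₀) ent11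
          (fun _ => PolyAff.const _)) k) ?_ ⟨C₀, hC₀, hpq⟩ C hC
      intro B hB hne
      obtain ⟨a, b, hb, hab⟩ := hcoef B hB hne
      have h' := b3 B hB
      rw [hab, mulVec_add, mulVec_smul, mulVec_smul, mulVec_add, mulVec_smul, mulVec_smul,
        b2 B hB, smul_zero, zero_add] at h'
      rw [(smul_eq_zero.mp h').resolve_left hb]
      rfl
    have d3 : ∀ C ∈ V, ∀ w, ∃ c : K, w ᵥ* C.toBlocks₂₁ = c • x := by
      intro C hC w
      apply exists_smul_of_dot hy hv₀ hx hxy hxv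
      · rw [← dotProduct_mulVec, b1 C hC, dotProduct_zero]
      · rw [← dotProduct_mulVec, d1 C hC, dotProduct_zero]
    obtain ⟨C₂, hC₂, hC₂0⟩ := h0
    obtain ⟨i₂, j₂, hij₂⟩ : ∃ i j, C₂.toBlocks₂₁ i j ≠ 0 := by
      by_contra hcon
      push Not at hcon
      exact hC₂0 (by ext i j; exact hcon i j)
    have d4 : ∀ C ∈ V, x ⬝ᵥ (C.toBlocks₁₁ *ᵥ v₀) = 0 := by
      intro C hC
      refine irr V (f := fun B => B.toBlocks₂₁ i₂ j₂)
        (g := fun B => x ⬝ᵥ (B.toBlocks₁₁ *ᵥ v₀)) (ent21 _ _)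
        (PolyAff.dot (fun _ => PolyAff.const _) (PolyAff.mulVec (v := fun _ => v₀) ent11
          (fun _ => PolyAff.const _))) ?_ ⟨C₂, hC₂, hij₂⟩ C hC
      intro B hB hne
      obtain ⟨c, hc⟩ := d3 B hB (Pi.single i₂ 1)
      have hc0 : c ≠ 0 := by
        rintro rfl
        have := congrFun hc j₂
        simp only [single_one_vecMul, zero_smul, Pi.zero_apply] at this
        exact hne this
      have h' : (Pi.single i₂ 1 ᵥ* B.toBlocks₂₁) ⬝ᵥ (B.toBlocks₁₁ *ᵥ v₀) = 0 := by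
        rw [← dotProduct_mulVec, d2 B hB, dotProduct_zero]
      rw [hc, smul_dotProduct] at h'
      exact (smul_eq_zero.mp h').resolve_left hc0
    refine ⟨x, hx, fun B hB => ⟨?_, d3 B hB, ?_⟩⟩
    · ext j
      obtain ⟨c, hc⟩ := hyC B hB (Pi.single j 1)
      have : x ⬝ᵥ (B.toBlocks₁₂ *ᵥ Pi.single j 1) = 0 := by
        rw [hc, dotProduct_smul, hxy, smul_zero]
      rw [dotProduct_mulVec, dotProduct_single_one] at this
      rw [this]; rfl
    · apply exists_smul_of_dot hy hv₀ hx hxy hxv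
      · rw [← dotProduct_mulVec]
        obtain ⟨a, b, hab⟩ := hα B hB
        rw [hab, dotProduct_add, dotProduct_smul, dotProduct_smul, hxy, hxv]
        simp
      · rw [← dotProduct_mulVec]
        exact d4 B hB
  · -- case (β)
    exfalso
    push Not at hα
    obtain ⟨D₀, hD₀, hvD⟩ := hα
    have hli : LinearIndependent K ![y, C₀.toBlocks₁₁ *ᵥ y, D₀.toBlocks₁₁ *ᵥ y] :=
      li3 hy hv₀ hvD
    -- polarisation
    have pol : ∀ C ∈ V, ∀ D ∈ V, C.toBlocks₂₁ *ᵥ (D.toBlocks₁₁ *ᵥ y) +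
        D.toBlocks₂₁ *ᵥ (C.toBlocks₁₁ *ᵥ y) = 0 := by
      intro C hC D hD
      have h' := b2 (C + D) (V.add_mem hC hD)
      have e1 : (C + D).toBlocks₂₁ = C.toBlocks₂₁ + D.toBlocks₂₁ := rfl
      have e2 : (C + D).toBlocks₁₁ = C.toBlocks₁₁ + D.toBlocks₁₁ := rfl
      rw [e1, e2, add_mulVec, add_mulVec, mulVec_add, mulVec_add, b2 C hC, b2 D hD, zero_add,
        add_zero] at h'
      exact h'
    -- β2
    have β2 : ∀ C ∈ V, (∀ c : K, C.toBlocks₁₁ *ᵥ y ≠ c • y) → C.toBlocks₂₁ ≠ 0 := by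
      intro C hC hCy hC0
      have hkill : ∀ D ∈ V, D.toBlocks₂₁ *ᵥ (C.toBlocks₁₁ *ᵥ y) = 0 := by
        intro D hD
        have h' := pol C hC D hD
        rw [hC0, zero_mulVec, zero_add] at h'
        exact h'
      -- some D₁ with v_{D₁} outside the span of y, v_C
      have hex : ∃ D₁ ∈ V, ∀ a b : K, D₁.toBlocks₁₁ *ᵥ y ≠ a • y + b • (C.toBlocks₁₁ *ᵥ y) := by
        by_contra hcon
        push Not at hcon
        obtain ⟨x, hx, hxy, hxv⟩ := exists_orth hy hCy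
        apply hx
        apply vec_eq_zero hli hxy
        · obtain ⟨a, b, hab⟩ := hcon C₀ hC₀
          rw [hab, dotProduct_add, dotProduct_smul, dotProduct_smul, hxy, hxv]; simp
        · obtain ⟨a, b, hab⟩ := hcon D₀ hD₀
          rw [hab, dotProduct_add, dotProduct_smul, dotProduct_smul, hxy, hxv]; simp
      obtain ⟨D₁, hD₁, hD₁v⟩ := hex
      have hout : ∀ D ∈ V, (∀ a b : K, D.toBlocks₁₁ *ᵥ y ≠ a • y + b • (C.toBlocks₁₁ *ᵥ y)) →
          D.toBlocks₂₁ = 0 := by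
        intro D hD hDv
        exact mat_eq_zero (li3 hy hCy hDv) (b1 D hD) (hkill D hD) (b2 D hD)
      obtain ⟨C₂, hC₂, hC₂0⟩ := h0
      apply hC₂0
      by_cases h' : ∀ a b : K, C₂.toBlocks₁₁ *ᵥ y ≠ a • y + b • (C.toBlocks₁₁ *ᵥ y)
      · exact hout C₂ hC₂ h'
      · push Not at h'
        obtain ⟨a, b, hab⟩ := h'
        have e1 := hout D₁ hD₁ hD₁v
        have e2 := hout (D₁ + C₂) (V.add_mem hD₁ hC₂) (by
          intro a' b' h''
          have e : (D₁ + C₂).toBlocks₁₁ = D₁.toBlocks₁₁ + C₂.toBlocks₁₁ := rfl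
          rw [e, add_mulVec, hab] at h''
          apply hD₁v (a' - a) (b' - b)
          rw [sub_smul, sub_smul]
          rw [← sub_eq_zero] at h'' ⊢
          rw [← h'']
          abel)
        have e3 : (D₁ + C₂).toBlocks₂₁ = D₁.toBlocks₂₁ + C₂.toBlocks₂₁ := rfl
        rw [e3, e1, zero_add] at e2
        exact e2
    -- β3
    have β3 : ∀ C ∈ V, ∀ X ∈ V0 V, (∀ c : K, C.toBlocks₁₁ *ᵥ y ≠ c • y) →
        ∃ a b : K, X *ᵥ (C.toBlocks₁₁ *ᵥ y) = a • y + b • (C.toBlocks₁₁ *ᵥ y) := by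
      intro C hC X hX hCy
      by_contra hcon
      push Not at hcon
      exact β2 C hC hCy (mat_eq_zero (li3 hy hCy hcon) (b1 C hC) (b2 C hC) (b4 C hC X hX))
    have hD₀y : ∀ c : K, D₀.toBlocks₁₁ *ᵥ y ≠ c • y := by
      intro c hc
      apply hvD c 0
      rw [hc, zero_smul, add_zero]
    have hsum : (C₀ + D₀).toBlocks₁₁ *ᵥ y = C₀.toBlocks₁₁ *ᵥ y + D₀.toBlocks₁₁ *ᵥ y := by
      have e : (C₀ + D₀).toBlocks₁₁ = C₀.toBlocks₁₁ + D₀.toBlocks₁₁ := rfl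
      rw [e, add_mulVec]
    have hS : ∀ c : K, (C₀ + D₀).toBlocks₁₁ *ᵥ y ≠ c • y := by
      intro c hc
      rw [hsum] at hc
      apply hvD c (-1)
      rw [← hc, neg_smul, one_smul]
      abel
    have := scalar_quot (V := V) hli hyE (fun X hX => β3 C₀ hC₀ X hX hv₀)
      (fun X hX => β3 D₀ hD₀ X hX hD₀y)
      (fun X hX => by
        have := β3 (C₀ + D₀) (V.add_mem hC₀ hD₀) X hX hS
        rwa [hsum] at this)
    omega

end Pool.Agent.Lib.MP_d51aa1_ag
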