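import Mathlib

set_option autoImplicit false

/-!
# Polynomial functions of one variable, and the basic identities for spaces of matrices of
bounded rank
-/

open Matrix Module

namespace Pool.Agent.Lib.MP_d51aa1_ag

variable {K : Type*} [Field K]

/-- `f : K → K` is a polynomial function -/
def PolyFun (f : K → K) : Prop := ∃ p : Polynomial K, ∀ t, f t = p.eval t

namespace PolyFun

theorem const (c : K) : PolyFun (fun _ => c) := ⟨Polynomial.C c, by simp⟩

theorem id : PolyFun (fun t : K => t) := ⟨Polynomial.X, by simp⟩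

theorem add {f g : K → K} (hf : PolyFun f) (hg : PolyFun g) : PolyFun (fun t => f t + g t) := by
  obtain ⟨p, hp⟩ := hf
  obtain ⟨q, hq⟩ := hg
  exact ⟨p + q, by simp [hp, hq]⟩

theorem mul {f g : K → K} (hf : PolyFun f) (hg : PolyFun g) : PolyFun (fun t => f t * g t) := by
  obtain ⟨p, hp⟩ := hf
  obtain ⟨q, hq⟩ := hg
  exact ⟨p * q, by simp [hp, hq]⟩

theorem sub {f g : K → K} (hf : PolyFun f) (hg : PolyFun g) : PolyFun (fun t => f t - g t) := by
  obtain ⟨p, hp⟩ := hf
  obtain ⟨q, hq⟩ := hg
  exact ⟨p - q, by simp [hp, hq]⟩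

theorem sum {ι : Type*} (s : Finset ι) {f : ι → K → K} (hf : ∀ i, PolyFun (f i)) :
    PolyFun (fun t => ∑ i ∈ s, f i t) := by
  choose p hp using hf
  exact ⟨∑ i ∈ s, p i, by simp [hp, Polynomial.eval_finsetSum]⟩

theorem prod {ι : Type*} (s : Finset ι) {f : ι → K → K} (hf : ∀ i, PolyFun (f i)) :
    PolyFun (fun t => ∏ i ∈ s, f i t) := by
  choose p hp using hf
  exact ⟨∏ i ∈ s, p i, by simp [hp, Polynomial.eval_prod]⟩

/-- a product of two polynomial functions vanishes only if one of them vanishes -/
theorem or_of_forall_or [Infinite K] {f g : K → K} (hf : PolyFun f) (hg : PolyFun g)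
    (h : ∀ t, f t = 0 ∨ g t = 0) : (∀ t, f t = 0) ∨ (∀ t, g t = 0) := by
  obtain ⟨p, hp⟩ := hf
  obtain ⟨q, hq⟩ := hg
  have : p * q = 0 := by
    apply Polynomial.funext
    intro t
    rw [Polynomial.eval_mul, ← hp, ← hq, Polynomial.eval_zero]
    rcases h t with h | h <;> simp [h]
  rcases mul_eq_zero.mp this with h0 | h0
  · left; intro t; rw [hp, h0, Polynomial.eval_zero]
  · right; intro t; rw [hq, h0, Polynomial.eval_zero]

/-- version with the second function nonzero somewhere -/
theorem eq_zero [Infinite K] {f g : K → K} (hf : PolyFun f) (hg : PolyFun g)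
    (h : ∀ t, g t ≠ 0 → f t = 0) (t₀ : K) (h0 : g t₀ ≠ 0) (t : K) : f t = 0 := by
  rcases hf.or_of_forall_or hg (fun t => by
    by_cases ht : g t = 0
    · exact Or.inr ht
    · exact Or.inl (h t ht)) with h1 | h1
  · exact h1 t
  · exact absurd (h1 t₀) h0

theorem det {m : Type*} [Fintype m] [DecidableEq m] {A : K → Matrix m m K}
    (hA : ∀ i j, PolyFun (fun t => A t i j)) : PolyFun (fun t => (A t).det) := by
  simp only [Matrix.det_apply]
  refine PolyFun.sum _ fun σ => ?_
  have : ∀ t, Equiv.Perm.sign σ • ∏ i, A t (σ i) i =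
      ((Equiv.Perm.sign σ : ℤ) : K) * ∏ i, A t (σ i) i := by
    intro t
    rw [Units.smul_def, zsmul_eq_mul]
  simp only [this]
  exact (PolyFun.const _).mul (PolyFun.prod _ fun i => hA _ _)

theorem adjugate {m : Type*} [Fintype m] [DecidableEq m] {A : K → Matrix m m K}
    (hA : ∀ i j, PolyFun (fun t => A t i j)) (i j : m) :
    PolyFun (fun t => (A t).adjugate i j) := by
  simp only [Matrix.adjugate_apply]
  refine PolyFun.det fun a b => ?_
  by_cases h : a = j
  · subst h
    simp only [Matrix.updateRow_self]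
    exact PolyFun.const _
  · simp only [Matrix.updateRow_ne h]
    exact hA a b

theorem mulMat {l m n : Type*} [Fintype m] {A : K → Matrix l m K} {B : K → Matrix m n K}
    (hA : ∀ i j, PolyFun (fun t => A t i j)) (hB : ∀ i j, PolyFun (fun t => B t i j))
    (i : l) (j : n) : PolyFun (fun t => (A t * B t) i j) := by
  simp only [Matrix.mul_apply]
  exact PolyFun.sum _ fun k => (hA i k).mul (hB k j)

theorem mulVec {l m : Type*} [Fintype m] {A : K → Matrix l m K} {v : K → m → K}
    (hA : ∀ i j, PolyFun (fun t => A t i j)) (hv : ∀ i, PolyFun (fun t => v t i))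
    (i : l) : PolyFun (fun t => (A t *ᵥ v t) i) := by
  simp only [Matrix.mulVec, dotProduct]
  exact PolyFun.sum _ fun k => (hA i k).mul (hv k)

theorem vecMul {l m : Type*} [Fintype l] {A : K → Matrix l m K} {v : K → l → K}
    (hA : ∀ i j, PolyFun (fun t => A t i j)) (hv : ∀ i, PolyFun (fun t => v t i))
    (j : m) : PolyFun (fun t => (v t ᵥ* A t) j) := by
  simp only [Matrix.vecMul, dotProduct]
  exact PolyFun.sum _ fun k => (hv k).mul (hA k j)

end PolyFun

section identities

variable {m k : Type*} [Fintype m] [Fintype k] [DecidableEq m] [DecidableEq k]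

theorem adj_step [Infinite K] {l : Type*} (L : Matrix l m K) (X : Matrix m m K)
    (R : Matrix m k K)
    (h : ∀ t : K, L * (1 + t • X).adjugate * R = 0) :
    L * R = 0 ∧ ∀ t : K, (L * X) * (1 + t • X).adjugate * R = 0 := by
  have h0 : L * R = 0 := by simpa using h 0
  refine ⟨h0, fun t => ?_⟩
  ext i j
  have h1 : ∀ t : K, t ≠ 0 → ((L * X) * (1 + t • X).adjugate * R) i j = 0 := by
    intro t ht
    have e1 : L * ((1 + t • X) * (1 + t • X).adjugate) * R = 0 := by
      rw [Matrix.mul_adjugate]
      simp [h0]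
    have e2 : L * ((1 + t • X) * (1 + t • X).adjugate) * R =
        L * (1 + t • X).adjugate * R + t • ((L * X) * (1 + t • X).adjugate * R) := by
      rw [Matrix.add_mul, Matrix.one_mul, Matrix.mul_add, Matrix.add_mul, Matrix.smul_mul,
        Matrix.mul_smul, Matrix.smul_mul]
      simp only [Matrix.mul_assoc]
    rw [e1, h t, zero_add] at e2
    have e3 := congrFun (congrFun e2 i) j
    simp only [Matrix.zero_apply, Matrix.smul_apply, smul_eq_mul] at e3
    rcases mul_eq_zero.mp e3.symm with h | h
    · exact absurd h ht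
    · exact h
  have hX : ∀ i j, PolyFun (fun t : K => (1 + t • X) i j) := by
    intro i j
    simp only [Matrix.add_apply, Matrix.smul_apply, smul_eq_mul]
    exact (PolyFun.const _).add (PolyFun.id.mul (PolyFun.const _))
  have hp : PolyFun (fun t : K => ((L * X) * (1 + t • X).adjugate * R) i j) := by
    refine PolyFun.mulMat (A := fun t : K => (L * X) * (1 + t • X).adjugate) (B := fun _ => R) ?_
      (fun _ _ => PolyFun.const _) i j
    exact PolyFun.mulMat (A := fun _ => L * X) (fun _ _ => PolyFun.const _)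
      (fun a b => PolyFun.adjugate hX a b)
  exact hp.eq_zero PolyFun.id (fun t ht => h1 t ht) 1 one_ne_zero t

/-- The fundamental identities. -/
theorem identities [Infinite K] (B : Matrix (m ⊕ k) (m ⊕ k) K)
    (h : ∀ t : K, (fromBlocks 1 0 0 0 + t • B).rank ≤ Fintype.card m) :
    B.toBlocks₂₂ = 0 ∧ ∀ t : K, B.toBlocks₂₁ * (1 + t • B.toBlocks₁₁).adjugate * B.toBlocks₁₂ = 0 := by
  set X := B.toBlocks₁₁ with hXdef
  set P := B.toBlocks₁₂ with hPdef
  set Q := B.toBlocks₂₁ with hQdef
  set D := B.toBlocks₂₂ with hDdef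
  have hX : ∀ i j, PolyFun (fun t : K => (1 + t • X) i j) := by
    intro i j
    simp only [Matrix.add_apply, Matrix.smul_apply, smul_eq_mul]
    exact (PolyFun.const _).add (PolyFun.id.mul (PolyFun.const _))
  have hadj : ∀ i j, PolyFun (fun t : K => (Q * (1 + t • X).adjugate * P) i j) := by
    intro i j
    refine PolyFun.mulMat (A := fun t : K => Q * (1 + t • X).adjugate) (B := fun _ => P) ?_
      (fun _ _ => PolyFun.const _) i j
    exact PolyFun.mulMat (A := fun _ => Q) (fun _ _ => PolyFun.const _)
      (fun a b => PolyFun.adjugate hX a b)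
  have hdet : PolyFun (fun t : K => (1 + t • X).det) := PolyFun.det hX
  have key : ∀ i j : k, ∀ t : K, t * (D i j * (1 + t • X).det -
      t * (Q * (1 + t • X).adjugate * P) i j) = 0 := by
    intro i j
    have hf : PolyFun (fun t : K => t * (D i j * (1 + t • X).det -
      t * (Q * (1 + t • X).adjugate * P) i j)) :=
      PolyFun.id.mul (((PolyFun.const _).mul hdet).sub (PolyFun.id.mul (hadj i j)))
    refine hf.eq_zero hdet ?_ 0 (by simp)
    intro t ht
    have hr : ((fromBlocks 1 0 0 0 + t • B).submatrix (Sum.map id (fun _ : Unit => i))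
        (Sum.map id (fun _ : Unit => j))).det = 0 := by
      by_contra hne
      have h1 := Matrix.rank_of_det_ne_zero hne
      have h2 := Matrix.rank_submatrix_le (fromBlocks 1 0 0 0 + t • B)
        (Sum.map id (fun _ : Unit => i)) (Sum.map id (fun _ : Unit => j))
      rw [h1] at h2
      have h3 := h t
      simp only [Fintype.card_sum, Fintype.card_unit] at h2
      omega
    have hsub : (fromBlocks 1 0 0 0 + t • B).submatrix (Sum.map id (fun _ : Unit => i))
        (Sum.map id (fun _ : Unit => j)) =
        fromBlocks (1 + t • X) (of fun a _ => t * P a j) (of fun _ b => t * Q i b)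
          (of fun _ _ => t * D i j) := by
      ext a b
      rcases a with a | a <;> rcases b with b | b <;>
        simp [hXdef, hPdef, hQdef, hDdef, Matrix.toBlocks₁₁, Matrix.toBlocks₁₂,
          Matrix.toBlocks₂₁, Matrix.toBlocks₂₂]
    rw [hsub] at hr
    have : Invertible (1 + t • X) := Matrix.invertibleOfIsUnitDet _ (isUnit_iff_ne_zero.mpr ht)
    rw [Matrix.det_fromBlocks₁₁] at hr
    have hr2 := (mul_eq_zero.mp hr).resolve_left ht
    rw [Matrix.det_unique] at hr2
    rw [Matrix.invOf_eq_nonsing_inv, Matrix.inv_def, Ring.inverse_eq_inv'] at hr2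
    have e1 : ((of fun (_ : Unit) b => t * Q i b) * ((1 + t • X).det⁻¹ • (1 + t • X).adjugate) *
        (of fun a (_ : Unit) => t * P a j)) default default =
        t * t * (1 + t • X).det⁻¹ * (Q * (1 + t • X).adjugate * P) i j := by
      simp only [Matrix.mul_apply, Matrix.of_apply, Matrix.smul_apply, smul_eq_mul,
        Finset.sum_mul, Finset.mul_sum]
      refine Finset.sum_congr rfl fun a _ => Finset.sum_congr rfl fun b _ => ?_
      ring
    rw [Matrix.sub_apply, e1] at hr2
    simp only [Matrix.of_apply] at hr2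
    have e2 : t * (D i j * (1 + t • X).det - t * (Q * (1 + t • X).adjugate * P) i j) =
        (1 + t • X).det * (t * D i j - t * t * (1 + t • X).det⁻¹ *
          (Q * (1 + t • X).adjugate * P) i j) := by
      field_simp
    rw [e2, hr2, mul_zero]
  have key2 : ∀ i j : k, ∀ t : K, D i j * (1 + t • X).det -
      t * (Q * (1 + t • X).adjugate * P) i j = 0 := by
    intro i j
    have hf : PolyFun (fun t : K => D i j * (1 + t • X).det -
      t * (Q * (1 + t • X).adjugate * P) i j) :=
      ((PolyFun.const _).mul hdet).sub (PolyFun.id.mul (hadj i j))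
    refine hf.eq_zero PolyFun.id ?_ 1 one_ne_zero
    intro t ht
    exact (mul_eq_zero.mp (key i j t)).resolve_left ht
  have hD : D = 0 := by
    ext i j
    have := key2 i j 0
    simpa using this
  refine ⟨hD, fun t => ?_⟩
  ext i j
  refine (hadj i j).eq_zero PolyFun.id ?_ 1 one_ne_zero t
  intro t ht
  have h1 := key2 i j t
  rw [hD] at h1
  simp only [Matrix.zero_apply, zero_mul, zero_sub, neg_eq_zero] at h1
  exact (mul_eq_zero.mp h1).resolve_left ht

end identities

end Pool.Agent.Lib.MP_d51aa1_ag
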