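import Pool.Agent.Lib.MP_d51aa1_ag.Assemble

set_option autoImplicit false

/-!
# Transfer to the normal form
-/

open Matrix Module

namespace Pool.Agent.Lib.MP_d51aa1_ag

variable {K : Type*} [Field K] {n n' : Type*} [Fintype n] [DecidableEq n] [Fintype n']
  [DecidableEq n']

/-- multiplication by invertible matrices from both sides, and reindexing -/
noncomputable def eqv (P Q : Matrix n n K) (hP : IsUnit P.det) (hQ : IsUnit Q.det) (e : n ≃ n') :
    Matrix n n K ≃ₗ[K] Matrix n' n' K where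
  toFun B := (P * B * Q).submatrix e.symm e.symm
  invFun B := P⁻¹ * (B.submatrix e e) * Q⁻¹
  map_add' A B := by
    rw [Matrix.mul_add, Matrix.add_mul]; rfl
  map_smul' c A := by
    rw [Matrix.mul_smul, Matrix.smul_mul]; rfl
  left_inv B := by
    simp only [Matrix.submatrix_submatrix, Equiv.symm_comp_self, Matrix.submatrix_id_id]
    rw [Matrix.mul_assoc P, Matrix.nonsing_inv_mul_cancel_left P _ hP,
      Matrix.mul_nonsing_inv_cancel_right Q _ hQ]
  right_inv B := by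
    change (P * (P⁻¹ * (B.submatrix e e) * Q⁻¹) * Q).submatrix e.symm e.symm = B
    rw [Matrix.mul_assoc P⁻¹, Matrix.mul_nonsing_inv_cancel_left P _ hP,
      Matrix.nonsing_inv_mul_cancel_right Q _ hQ]
    simp

theorem eqv_apply (P Q : Matrix n n K) (hP : IsUnit P.det) (hQ : IsUnit Q.det) (e : n ≃ n')
    (B : Matrix n n K) : eqv P Q hP hQ e B = (P * B * Q).submatrix e.symm e.symm := rfl

theorem rank_eqv (P Q : Matrix n n K) (hP : IsUnit P.det) (hQ : IsUnit Q.det) (e : n ≃ n')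
    (B : Matrix n n K) : (eqv P Q hP hQ e B).rank = B.rank := by
  rw [eqv_apply, Matrix.rank_submatrix, Matrix.rank_mul_eq_left_of_isUnit_det Q _ hQ,
    Matrix.rank_mul_eq_right_of_isUnit_det P _ hP]

/-- action on vectors -/
noncomputable def vm (P : Matrix n n K) (hP : IsUnit P.det) (e : n ≃ n') :
    (n → K) ≃ₗ[K] (n' → K) where
  toFun v := (v ᵥ* P) ∘ e.symm
  invFun v := (v ∘ e) ᵥ* P⁻¹
  map_add' a b := by
    rw [add_vecMul]; rfl
  map_smul' c a := by
    rw [smul_vecMul]; rfl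
  left_inv v := by
    change (((v ᵥ* P) ∘ e.symm) ∘ e) ᵥ* P⁻¹ = v
    rw [Function.comp_assoc, Equiv.symm_comp_self, Function.comp_id, vecMul_vecMul,
      Matrix.mul_nonsing_inv P hP, vecMul_one]
  right_inv v := by
    change (((v ∘ e) ᵥ* P⁻¹) ᵥ* P) ∘ e.symm = v
    rw [vecMul_vecMul, Matrix.nonsing_inv_mul P hP, vecMul_one, Function.comp_assoc,
      Equiv.self_comp_symm, Function.comp_id]

theorem vm_apply (P : Matrix n n K) (hP : IsUnit P.det) (e : n ≃ n') (v : n → K) :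
    vm P hP e v = (v ᵥ* P) ∘ e.symm := rfl

theorem vm_vecMul_eqv (P Q : Matrix n n K) (hP : IsUnit P.det) (hQ : IsUnit Q.det)
    (hP' : IsUnit P⁻¹.det) (e : n ≃ n') (v : n → K) (B : Matrix n n K) :
    vm P⁻¹ hP' e v ᵥ* eqv P Q hP hQ e B = vm Q hQ e (v ᵥ* B) := by
  rw [vm_apply, vm_apply, eqv_apply]
  ext j
  simp only [Function.comp_apply]
  have h1 : (v ᵥ* P⁻¹) ᵥ* (P * B * Q) = (v ᵥ* B) ᵥ* Q := by
    rw [vecMul_vecMul, vecMul_vecMul, Matrix.mul_assoc P,
      Matrix.nonsing_inv_mul_cancel_left P _ hP]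
  rw [← h1]
  simp only [vecMul, dotProduct, Function.comp_apply, Matrix.submatrix_apply]
  exact Fintype.sum_equiv e.symm _ _ (fun _ => rfl)

theorem eqv_transpose (P Q : Matrix n n K) (hP : IsUnit P.det) (hQ : IsUnit Q.det)
    (hP' : IsUnit Pᵀ.det) (hQ' : IsUnit Qᵀ.det) (e : n ≃ n') (B : Matrix n n K) :
    (eqv P Q hP hQ e B)ᵀ = eqv Qᵀ Pᵀ hQ' hP' e Bᵀ := by
  rw [eqv_apply, eqv_apply, Matrix.transpose_submatrix, Matrix.transpose_mul,
    Matrix.transpose_mul, Matrix.mul_assoc]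

theorem JL_eqv_iff (P Q : Matrix n n K) (hP : IsUnit P.det) (hQ : IsUnit Q.det) (e : n ≃ n')
    (V : Submodule K (Matrix n n K)) :
    JL (V.map (eqv P Q hP hQ e).toLinearMap) ↔ JL V := by
  have hP' : IsUnit P⁻¹.det := by
    rw [Matrix.isUnit_nonsing_inv_det_iff]
    exact hP
  constructor
  · intro h
    exact JL.transfer (eqv P Q hP hQ e) (vm P⁻¹ hP' e) (vm Q hQ e)
      (fun B hB => Submodule.mem_map_of_mem hB) (fun B => rank_eqv P Q hP hQ e B)
      (fun v B => vm_vecMul_eqv P Q hP hQ hP' e v B) h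
  · intro h
    refine JL.transfer (V := V.map (eqv P Q hP hQ e).toLinearMap)
      (eqv P Q hP hQ e).symm (vm P⁻¹ hP' e).symm (vm Q hQ e).symm ?_ ?_ ?_ h
    · rintro _ ⟨B, hB, rfl⟩
      simpa using hB
    · intro B
      have := rank_eqv P Q hP hQ e ((eqv P Q hP hQ e).symm B)
      rw [LinearEquiv.apply_symm_apply] at this
      exact this.symm
    · intro v B
      apply (vm Q hQ e).injective
      rw [← vm_vecMul_eqv P Q hP hQ hP', LinearEquiv.apply_symm_apply,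
        LinearEquiv.apply_symm_apply, LinearEquiv.apply_symm_apply]

theorem tr_map_eqv (P Q : Matrix n n K) (hP : IsUnit P.det) (hQ : IsUnit Q.det)
    (hP' : IsUnit Pᵀ.det) (hQ' : IsUnit Qᵀ.det) (e : n ≃ n') (V : Submodule K (Matrix n n K)) :
    tr (V.map (eqv P Q hP hQ e).toLinearMap) = (tr V).map (eqv Qᵀ Pᵀ hQ' hP' e).toLinearMap := by
  ext B
  rw [mem_tr]
  constructor
  · rintro ⟨C, hC, hCB⟩
    refine ⟨Cᵀ, mem_tr.mpr (by simpa using hC), ?_⟩
    have := eqv_transpose P Q hP hQ hP' hQ' e C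
    have h2 : eqv P Q hP hQ e C = Bᵀ := hCB
    rw [h2, transpose_transpose] at this
    exact this.symm
  · rintro ⟨C, hC, hCB⟩
    refine ⟨Cᵀ, mem_tr.mp hC, ?_⟩
    have := eqv_transpose P Q hP hQ hP' hQ' e Cᵀ
    rw [transpose_transpose] at this
    have h2 : eqv Qᵀ Pᵀ hQ' hP' e C = B := hCB
    rw [h2] at this
    rw [← this, transpose_transpose]
    rfl

theorem finrank_map_eqv (P Q : Matrix n n K) (hP : IsUnit P.det) (hQ : IsUnit Q.det) (e : n ≃ n')
    (V : Submodule K (Matrix n n K)) :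
    finrank K (V.map (eqv P Q hP hQ e).toLinearMap) = finrank K V :=
  LinearEquiv.finrank_map_eq (eqv P Q hP hQ e) V

theorem submatrix_cast {m k m' k' : Type*} [DecidableEq m] [DecidableEq m']
    (f : m ≃ m') (g : k ≃ k') :
    (fromBlocks 1 0 0 0 : Matrix (m' ⊕ k') (m' ⊕ k') K).submatrix (Equiv.sumCongr f g)
      (Equiv.sumCongr f g) = fromBlocks 1 0 0 0 := by
  ext i j
  rcases i with i | i <;> rcases j with j | j <;> simp [Matrix.one_apply]

/-- a matrix of maximal rank in the space has rank three -/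
theorem exists_rank_three [Infinite K] (V : Submodule K (Matrix (Fin 5) (Fin 5) K))
    (hr : ∀ B ∈ V, B.rank ≤ 3) (hd : finrank K V = 11) : ∃ A ∈ V, A.rank = 3 := by
  classical
  obtain ⟨A, hA, hmax⟩ : ∃ A ∈ V, ∀ B ∈ V, B.rank ≤ A.rank := by
    by_contra hcon
    push Not at hcon
    have key : ∀ k : ℕ, ∃ A ∈ V, k ≤ A.rank := by
      intro k
      induction k with
      | zero => exact ⟨0, V.zero_mem, Nat.zero_le _⟩
      | succ k ih =>
        obtain ⟨A, hA, hk⟩ := ih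
        obtain ⟨B, hB, hAB⟩ := hcon A hA
        exact ⟨B, hB, by omega⟩
    obtain ⟨A, hA, h⟩ := key 4
    have := hr A hA
    omega
  refine ⟨A, hA, ?_⟩
  have hA3 := hr A hA
  obtain ⟨P, Q, e, hP, hQ, he⟩ := Matrix.exists_rank_normal_form A
  have hP' : IsUnit P.det := (Matrix.isUnit_iff_isUnit_det P).mp hP
  have hQ' : IsUnit Q.det := (Matrix.isUnit_iff_isUnit_det Q).mp hQ
  have hE : eqv P Q hP' hQ' e A = fromBlocks 1 0 0 0 := by
    rw [eqv_apply, he]
    ext i j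
    simp
  have h1 := finrank_le_of_rank_le (V.map (eqv P Q hP' hQ' e).toLinearMap)
    ⟨A, hA, hE⟩ (by
      rintro _ ⟨B, hB, rfl⟩
      have := rank_eqv P Q hP' hQ' e B
      simp only [LinearEquiv.coe_coe, Fintype.card_fin]
      rw [this]
      exact hmax B hB)
  rw [finrank_map_eqv, hd] at h1
  simp only [Fintype.card_fin] at h1
  have h2 : A.rank = 0 ∨ A.rank = 1 ∨ A.rank = 2 ∨ A.rank = 3 := by omega
  rcases h2 with h2 | h2 | h2 | h2
  · rw [h2] at h1; omega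
  · rw [h2] at h1; omega
  · rw [h2] at h1; omega
  · exact h2

theorem exists_normal_form [Infinite K] (V : Submodule K (Matrix (Fin 5) (Fin 5) K))
    (hr : ∀ B ∈ V, B.rank ≤ 3) (hd : finrank K V = 11) :
    ∃ V' : Submodule K (Matrix (Fin 3 ⊕ Fin 2) (Fin 3 ⊕ Fin 2) K),
      (fromBlocks 1 0 0 0 : Matrix (Fin 3 ⊕ Fin 2) (Fin 3 ⊕ Fin 2) K) ∈ V' ∧
      (∀ B ∈ V', B.rank ≤ 3) ∧ finrank K V' = 11 ∧ (JL V' ↔ JL V) ∧ (JL (tr V') ↔ JL (tr V)) := by
  obtain ⟨A, hA, hA3⟩ := exists_rank_three V hr hd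
  obtain ⟨P, Q, e, hP, hQ, he⟩ := Matrix.exists_rank_normal_form A
  have hP' : IsUnit P.det := (Matrix.isUnit_iff_isUnit_det P).mp hP
  have hQ' : IsUnit Q.det := (Matrix.isUnit_iff_isUnit_det Q).mp hQ
  have hPT : IsUnit Pᵀ.det := by rwa [Matrix.det_transpose]
  have hQT : IsUnit Qᵀ.det := by rwa [Matrix.det_transpose]
  have hc : Fintype.card (Fin 5) - A.rank = 2 := by rw [hA3]; rfl
  set s := Equiv.sumCongr (finCongr hA3) (finCongr hc) with hs
  set e' : Fin 5 ≃ Fin 3 ⊕ Fin 2 := e.trans s with he'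
  have hE : eqv P Q hP' hQ' e' A = fromBlocks 1 0 0 0 := by
    rw [eqv_apply, he, ← submatrix_cast (finCongr hA3) (finCongr hc)]
    rw [Matrix.submatrix_submatrix, Matrix.submatrix_submatrix]
    have : ⇑((finCongr hA3).sumCongr (finCongr hc)) ∘ ⇑e ∘ ⇑e'.symm = id := by
      funext x
      exact e'.apply_symm_apply x
    rw [this, Matrix.submatrix_id_id]
  refine ⟨V.map (eqv P Q hP' hQ' e').toLinearMap, ⟨A, hA, hE⟩, ?_, ?_, ?_, ?_⟩
  · rintro _ ⟨B, hB, rfl⟩
    have := rank_eqv P Q hP' hQ' e' B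
    simp only [LinearEquiv.coe_coe]
    rw [this]
    exact hr B hB
  · rw [finrank_map_eqv, hd]
  · exact JL_eqv_iff P Q hP' hQ' e' V
  · rw [tr_map_eqv P Q hP' hQ' hPT hQT]
    exact JL_eqv_iff Qᵀ Pᵀ hQT hPT e' (tr V)

theorem dichotomy5 [Infinite K] (V : Submodule K (Matrix (Fin 5) (Fin 5) K))
    (hr : ∀ B ∈ V, B.rank ≤ 3) (hd : finrank K V = 11) : JL V ∨ JL (tr V) := by
  obtain ⟨V', hE, hr', hd', h1, h2⟩ := exists_normal_form V hr hd
  rw [← h1, ← h2]
  exact dichotomy_nf hE hr' hd'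

theorem disjoint5 [Infinite K] (V : Submodule K (Matrix (Fin 5) (Fin 5) K))
    (hr : ∀ B ∈ V, B.rank ≤ 3) (hd : finrank K V = 11) (hJ : JL V) (hJ' : JL (tr V)) : False := by
  obtain ⟨V', hE, hr', hd', h1, h2⟩ := exists_normal_form V hr hd
  exact disjoint_nf hE hr' hd' (h1.mpr hJ) (h2.mpr hJ')

end Pool.Agent.Lib.MP_d51aa1_ag
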