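import Pool.Agent.Lib.MP_d51aa1_ag.Dim

set_option autoImplicit false

/-!
# Linear algebra in dimension three, and irreducibility of linear spaces
-/

open Matrix Module

namespace Pool.Agent.Lib.MP_d51aa1_ag

variable {K : Type*} [Field K]

/-- functions which are polynomial along all lines -/
def PolyAff {M : Type*} [AddCommGroup M] [Module K M] (f : M → K) : Prop :=
  ∀ B C : M, PolyFun (fun s : K => f (B + s • C))

namespace PolyAff

variable {M : Type*} [AddCommGroup M] [Module K M]

theorem const (c : K) : PolyAff (fun _ : M => c) := fun _ _ => PolyFun.const _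

theorem linear (f : M →ₗ[K] K) : PolyAff (fun B => f B) := by
  intro B C
  simp only [map_add, map_smul, smul_eq_mul]
  exact (PolyFun.const _).add (PolyFun.id.mul (PolyFun.const _))

theorem add {f g : M → K} (hf : PolyAff f) (hg : PolyAff g) : PolyAff (fun B => f B + g B) :=
  fun B C => (hf B C).add (hg B C)

theorem sub {f g : M → K} (hf : PolyAff f) (hg : PolyAff g) : PolyAff (fun B => f B - g B) :=
  fun B C => (hf B C).sub (hg B C)

theorem mul {f g : M → K} (hf : PolyAff f) (hg : PolyAff g) : PolyAff (fun B => f B * g B) :=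
  fun B C => (hf B C).mul (hg B C)

theorem sum {ι : Type*} (s : Finset ι) {f : ι → M → K} (hf : ∀ i, PolyAff (f i)) :
    PolyAff (fun B => ∑ i ∈ s, f i B) := fun B C => PolyFun.sum s fun i => hf i B C

theorem entry {m n : Type*} (i : m) (j : n) : PolyAff (fun B : Matrix m n K => B i j) := by
  intro B C
  simp only [Matrix.add_apply, Matrix.smul_apply, smul_eq_mul]
  exact (PolyFun.const _).add (PolyFun.id.mul (PolyFun.const _))

theorem mulVec {l m : Type*} [Fintype m] {A : M → Matrix l m K} {v : M → m → K}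
    (hA : ∀ i j, PolyAff (fun B => A B i j)) (hv : ∀ i, PolyAff (fun B => v B i))
    (i : l) : PolyAff (fun B => (A B *ᵥ v B) i) := by
  simp only [Matrix.mulVec, dotProduct]
  exact PolyAff.sum _ fun k => (hA i k).mul (hv k)

theorem vecMul {l m : Type*} [Fintype l] {A : M → Matrix l m K} {v : M → l → K}
    (hA : ∀ i j, PolyAff (fun B => A B i j)) (hv : ∀ i, PolyAff (fun B => v B i))
    (j : m) : PolyAff (fun B => (v B ᵥ* A B) j) := by
  simp only [Matrix.vecMul, dotProduct]
  exact PolyAff.sum _ fun k => (hv k).mul (hA k j)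

theorem dot {l : Type*} [Fintype l] {u v : M → l → K}
    (hu : ∀ i, PolyAff (fun B => u B i)) (hv : ∀ i, PolyAff (fun B => v B i)) :
    PolyAff (fun B => u B ⬝ᵥ v B) := by
  simp only [dotProduct]
  exact PolyAff.sum _ fun k => (hu k).mul (hv k)

end PolyAff

/-- irreducibility of linear subspaces -/
theorem irr [Infinite K] {M : Type*} [AddCommGroup M] [Module K M] (V : Submodule K M)
    {f g : M → K} (hf : PolyAff f) (hg : PolyAff g) (h : ∀ B ∈ V, f B ≠ 0 → g B = 0)
    (hf0 : ∃ B ∈ V, f B ≠ 0) : ∀ B ∈ V, g B = 0 := by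
  obtain ⟨B₀, hB₀, hfB₀⟩ := hf0
  intro C hC
  by_contra hgC
  have h1 : ∀ s : K, f (B₀ + s • (C - B₀)) = 0 ∨ g (B₀ + s • (C - B₀)) = 0 := by
    intro s
    by_cases h' : f (B₀ + s • (C - B₀)) = 0
    · exact Or.inl h'
    · exact Or.inr (h _ (V.add_mem hB₀ (V.smul_mem s (V.sub_mem hC hB₀))) h')
  rcases (hf B₀ (C - B₀)).or_of_forall_or (hg B₀ (C - B₀)) h1 with h2 | h2
  · exact hfB₀ (by simpa using h2 0)
  · exact hgC (by simpa using h2 1)

section three

theorem exists_ne_zero_apply {n : Type*} {y : n → K} (hy : y ≠ 0) : ∃ i, y i ≠ 0 := by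
  by_contra h
  push Not at h
  exact hy (funext h)

/-- parallel vectors by vanishing of the minors -/
theorem exists_smul_of_minors {n : Type*} {y z : n → K} (hy : y ≠ 0)
    (h : ∀ i j, y i * z j - y j * z i = 0) : ∃ c : K, z = c • y := by
  obtain ⟨i, hi⟩ := exists_ne_zero_apply hy
  refine ⟨z i / y i, ?_⟩
  ext j
  have := h i j
  simp only [Pi.smul_apply, smul_eq_mul]
  field_simp
  linear_combination this

theorem minors_of_smul {n : Type*} (y : n → K) (c : K) (i j : n) :
    y i * (c • y) j - y j * (c • y) i = 0 := by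
  simp only [Pi.smul_apply, smul_eq_mul]; ring

theorem exists_minor_ne_zero {n : Type*} {y z : n → K} (hy : y ≠ 0)
    (h : ∀ c : K, z ≠ c • y) : ∃ i j, y i * z j - y j * z i ≠ 0 := by
  by_contra h'
  push Not at h'
  obtain ⟨c, hc⟩ := exists_smul_of_minors hy h'
  exact h c hc

theorem li2 {y v : Fin 3 → K} (hy : y ≠ 0) (hv : ∀ c : K, v ≠ c • y) :
    LinearIndependent K ![y, v] := by
  rw [LinearIndependent.pair_iff' hy]
  intro a ha
  exact hv a ha.symm

theorem li3 {y v u : Fin 3 → K} (hy : y ≠ 0) (hv : ∀ c : K, v ≠ c • y)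
    (hu : ∀ a b : K, u ≠ a • y + b • v) : LinearIndependent K ![y, v, u] := by
  rw [Fintype.linearIndependent_iff]
  intro g hg
  replace hg : g 0 • y + g 1 • v + g 2 • u = 0 := by
    simpa [Fin.sum_univ_three] using hg
  have h2 : g 2 = 0 := by
    by_contra h2
    apply hu (-(g 2)⁻¹ * g 0) (-(g 2)⁻¹ * g 1)
    have e : u = (g 2)⁻¹ • (g 2 • u) := by rw [smul_smul, inv_mul_cancel₀ h2, one_smul]
    have e2 : g 2 • u = -(g 0 • y) - g 1 • v := by
      rw [← sub_eq_zero, ← hg]; abel
    rw [e, e2]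
    ext i
    simp only [Pi.smul_apply, Pi.sub_apply, Pi.neg_apply, Pi.add_apply, smul_eq_mul]
    ring
  have h1 : g 1 = 0 := by
    by_contra h1
    apply hv (-(g 1)⁻¹ * g 0)
    rw [h2, zero_smul, add_zero] at hg
    have e : v = (g 1)⁻¹ • (g 1 • v) := by rw [smul_smul, inv_mul_cancel₀ h1, one_smul]
    have e2 : g 1 • v = -(g 0 • y) := by
      rw [← sub_eq_zero, ← hg]; abel
    rw [e, e2]
    ext i
    simp only [Pi.smul_apply, Pi.neg_apply, smul_eq_mul]
    ring
  have h0 : g 0 = 0 := by
    rw [h1, h2, zero_smul, zero_smul, add_zero, add_zero] at hg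
    exact (smul_eq_zero.mp hg).resolve_right hy
  intro i
  fin_cases i
  · exact h0
  · exact h1
  · exact h2

/-- a basis of `K^3` from three vectors -/
noncomputable def basis3 {y v u : Fin 3 → K} (h : LinearIndependent K ![y, v, u]) :
    Basis (Fin 3) K (Fin 3 → K) :=
  basisOfLinearIndependentOfCardEqFinrank h (by simp)

theorem basis3_zero {y v u : Fin 3 → K} (h : LinearIndependent K ![y, v, u]) :
    basis3 h 0 = y := by simp [basis3]

theorem basis3_one {y v u : Fin 3 → K} (h : LinearIndependent K ![y, v, u]) :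
    basis3 h 1 = v := by simp [basis3]

theorem basis3_two {y v u : Fin 3 → K} (h : LinearIndependent K ![y, v, u]) :
    basis3 h 2 = u := by simp [basis3]

theorem exists_coeff {y v u : Fin 3 → K} (h : LinearIndependent K ![y, v, u]) (z : Fin 3 → K) :
    ∃ a b c : K, z = a • y + b • v + c • u := by
  refine ⟨(basis3 h).repr z 0, (basis3 h).repr z 1, (basis3 h).repr z 2, ?_⟩
  conv_lhs => rw [← (basis3 h).sum_repr z]
  rw [Fin.sum_univ_three, basis3_zero, basis3_one, basis3_two]

theorem coeff_unique {y v u : Fin 3 → K} (h : LinearIndependent K ![y, v, u]) {a b c a' b' c' : K}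
    (he : a • y + b • v + c • u = a' • y + b' • v + c' • u) : a = a' ∧ b = b' ∧ c = c' := by
  rw [Fintype.linearIndependent_iff] at h
  have h1 := h ![a - a', b - b', c - c'] (by
    have : (a - a') • y + (b - b') • v + (c - c') • u =
      (a • y + b • v + c • u) - (a' • y + b' • v + c' • u) := by
        simp only [sub_smul]; abel
    rw [he, sub_self] at this
    simpa [Fin.sum_univ_three] using this)
  exact ⟨sub_eq_zero.mp (h1 0), sub_eq_zero.mp (h1 1), sub_eq_zero.mp (h1 2)⟩

theorem mat_eq_zero {l : Type*} {A : Matrix l (Fin 3) K} {y v u : Fin 3 → K}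
    (h : LinearIndependent K ![y, v, u]) (h0 : A *ᵥ y = 0) (h1 : A *ᵥ v = 0) (h2 : A *ᵥ u = 0) :
    A = 0 := by
  ext i j
  obtain ⟨a, b, c, hz⟩ := exists_coeff h (Pi.single j 1)
  have : A *ᵥ (Pi.single j 1) = 0 := by
    rw [hz, Matrix.mulVec_add, Matrix.mulVec_add, Matrix.mulVec_smul, Matrix.mulVec_smul,
      Matrix.mulVec_smul, h0, h1, h2]
    simp
  have := congrFun this i
  simpa using this

theorem vec_eq_zero {x : Fin 3 → K} {y v u : Fin 3 → K}
    (h : LinearIndependent K ![y, v, u]) (h0 : x ⬝ᵥ y = 0) (h1 : x ⬝ᵥ v = 0) (h2 : x ⬝ᵥ u = 0) :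
    x = 0 := by
  ext j
  obtain ⟨a, b, c, hz⟩ := exists_coeff h (Pi.single j 1)
  have : x ⬝ᵥ (Pi.single j 1) = 0 := by
    rw [hz, dotProduct_add, dotProduct_add, dotProduct_smul, dotProduct_smul, dotProduct_smul,
      h0, h1, h2]
    simp
  simpa using this

/-- two independent vectors can be completed to a basis -/
theorem exists_third {y v : Fin 3 → K} (hy : y ≠ 0) (hv : ∀ c : K, v ≠ c • y) :
    ∃ u, LinearIndependent K ![y, v, u] := by
  by_contra hcon
  push Not at hcon
  have h : ∀ u : Fin 3 → K, ∃ a b : K, u = a • y + b • v := by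
    intro u
    by_contra h'
    push Not at h'
    exact hcon u (li3 hy hv h')
  have htop : Submodule.span K (Set.range ![y, v]) = ⊤ := by
    rw [eq_top_iff]
    intro u _
    obtain ⟨a, b, rfl⟩ := h u
    apply Submodule.add_mem
    · exact Submodule.smul_mem _ _ (Submodule.subset_span ⟨0, rfl⟩)
    · exact Submodule.smul_mem _ _ (Submodule.subset_span ⟨1, rfl⟩)
  have h1 := finrank_range_le_card (R := K) ![y, v]
  rw [Set.finrank, htop, finrank_top, Module.finrank_fin_fun] at h1
  simp at h1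

/-- orthogonal vectors are unique up to scalars -/
theorem exists_smul_of_dot {x z y v : Fin 3 → K} (hy : y ≠ 0) (hv : ∀ c : K, v ≠ c • y)
    (hx : x ≠ 0) (hxy : x ⬝ᵥ y = 0) (hxv : x ⬝ᵥ v = 0) (hzy : z ⬝ᵥ y = 0) (hzv : z ⬝ᵥ v = 0) :
    ∃ c : K, z = c • x := by
  obtain ⟨u, hu⟩ := exists_third hy hv
  have hxu : x ⬝ᵥ u ≠ 0 := fun h => hx (vec_eq_zero hu hxy hxv h)
  refine ⟨z ⬝ᵥ u / x ⬝ᵥ u, ?_⟩
  rw [← sub_eq_zero]
  apply vec_eq_zero hu
  · rw [sub_dotProduct, smul_dotProduct, hxy, hzy]; simp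
  · rw [sub_dotProduct, smul_dotProduct, hxv, hzv]; simp
  · rw [sub_dotProduct, smul_dotProduct, smul_eq_mul, div_mul_cancel₀ _ hxu, sub_self]

/-- existence of an orthogonal vector -/
theorem exists_orth {y v : Fin 3 → K} (hy : y ≠ 0) (hv : ∀ c : K, v ≠ c • y) :
    ∃ x : Fin 3 → K, x ≠ 0 ∧ x ⬝ᵥ y = 0 ∧ x ⬝ᵥ v = 0 := by
  obtain ⟨i, j, hij⟩ := exists_minor_ne_zero hy hv
  refine ⟨crossProduct y v, ?_, ?_, ?_⟩
  · intro h0
    apply hij
    have c0 : y 1 * v 2 - y 2 * v 1 = 0 := by simpa [cross_apply] using congrFun h0 0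
    have c1 : y 2 * v 0 - y 0 * v 2 = 0 := by simpa [cross_apply] using congrFun h0 1
    have c2 : y 0 * v 1 - y 1 * v 0 = 0 := by simpa [cross_apply] using congrFun h0 2
    fin_cases i <;> fin_cases j <;> simp only [Fin.zero_eta, Fin.mk_one, Fin.reduceFinMk] <;>
      first
        | ring1
        | linear_combination c0
        | linear_combination c1
        | linear_combination c2
        | linear_combination -c0
        | linear_combination -c1
        | linear_combination -c2
  · rw [dotProduct_comm]; exact dot_self_cross y v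
  · rw [dotProduct_comm]; exact dot_cross_self y v

/-- the plane orthogonal to `x` -/
theorem exists_plane {x : Fin 3 → K} (hx : x ≠ 0) (y : Fin 3 → K) :
    ∃ v : Fin 3 → K, (∀ c : K, v ≠ c • y) ∧ x ⬝ᵥ v = 0 := by
  by_contra hcon
  push Not at hcon
  -- every vector orthogonal to `x` is a multiple of `y`
  have h : ∀ v, x ⬝ᵥ v = 0 → ∃ c : K, v = c • y := by
    intro v hv
    by_contra h'
    push Not at h'
    exact hcon v h' hv
  obtain ⟨i, hi⟩ := exists_ne_zero_apply hx
  -- vectors `x i e_j - x j e_i`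
  have hv : ∀ j, x ⬝ᵥ (x i • Pi.single j (1 : K) - x j • Pi.single i (1 : K)) = 0 := by
    intro j
    rw [dotProduct_sub, dotProduct_smul, dotProduct_smul, dotProduct_single_one,
      dotProduct_single_one, smul_eq_mul, smul_eq_mul]
    ring
  have key : ∀ j l, j ≠ i → l ≠ i → j ≠ l → False := by
    intro j l hj hl hjl
    obtain ⟨c, hc⟩ := h _ (hv j)
    obtain ⟨d, hd⟩ := h _ (hv l)
    have e1 := congrFun hc j
    have e2 := congrFun hc l
    have e3 := congrFun hd j
    have e4 := congrFun hd l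
    simp only [Pi.sub_apply, Pi.smul_apply, Pi.single_apply, smul_eq_mul] at e1 e2 e3 e4
    simp only [hj, hl, hjl, hjl.symm, if_false, if_true, mul_one, mul_zero, sub_zero] at e1 e2 e3 e4
    -- x i = c y j ; 0 = c y l ; 0 = d y j; x i = d y l
    have hc0 : c ≠ 0 := by
      rintro rfl
      apply hi; rw [e1, zero_mul]
    have hyl : y l = 0 := by
      rcases mul_eq_zero.mp e2.symm with h | h
      · exact absurd h hc0
      · exact h
    apply hi
    rw [e4, hyl, mul_zero]
  fin_cases i
  · exact key 1 2 (by decide) (by decide) (by decide)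
  · exact key 0 2 (by decide) (by decide) (by decide)
  · exact key 0 1 (by decide) (by decide) (by decide)

end three

end Pool.Agent.Lib.MP_d51aa1_ag
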